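import Mathlib
import Pool.Agent.Helper278.TB.Final

set_option autoImplicit false
set_option linter.all false

/-!
Truncations of the automorphisms in the property (T) branch group `G K`: the truncation at level `n`
acts as the given automorphism on the first `n` letters and fixes the others. Truncations are
homomorphisms into the subgroup of finitary elements.
-/

namespace Pool.Agent.T6.H53.EX

open Pool.Agent.Helper278.TB

variable {K : Type} [Field K]

section trunc

theorem take_app {α : Type} (n : ℕ) (u w : List α) (h : u.length = (w.take n).length) :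
    (u ++ w.drop n).take n = u ∧ (u ++ w.drop n).drop n = w.drop n := by
  rw [List.length_take] at h
  rcases le_total n w.length with h1 | h1
  · have h2 : u.length = n := by omega
    subst h2
    simp
  · have h2 : w.drop n = [] := List.drop_eq_nil_of_le h1
    rw [h2, List.append_nil]
    have h3 : u.length ≤ n := by omega
    exact ⟨List.take_of_length_le h3, List.drop_eq_nil_of_le h3⟩

/-- truncation of a permutation of words -/
def trP (n : ℕ) (g : G K) : Equiv.Perm (List (B K)) where
  toFun w := (g : Equiv.Perm (List (B K))) (w.take n) ++ w.drop n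
  invFun w := ((g⁻¹ : G K) : Equiv.Perm (List (B K))) (w.take n) ++ w.drop n
  left_inv w := by
    have h := take_app n ((g : Equiv.Perm (List (B K))) (w.take n)) w (G_length _ g.2 _)
    simp only [h.1, h.2]
    have h2 : ((g⁻¹ : G K) : Equiv.Perm (List (B K))) ((g : Equiv.Perm (List (B K))) (w.take n)) =
      w.take n := Equiv.symm_apply_apply (g : Equiv.Perm (List (B K))) _
    rw [h2, List.take_append_drop]
  right_inv w := by
    have h := take_app n (((g⁻¹ : G K) : Equiv.Perm (List (B K))) (w.take n)) w
      (G_length _ (g⁻¹).2 _)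
    simp only [h.1, h.2]
    have h2 : (g : Equiv.Perm (List (B K))) (((g⁻¹ : G K) : Equiv.Perm (List (B K))) (w.take n)) =
      w.take n := Equiv.apply_symm_apply (g : Equiv.Perm (List (B K))) _
    rw [h2, List.take_append_drop]

theorem trP_apply (n : ℕ) (g : G K) (w : List (B K)) :
    trP n g w = (g : Equiv.Perm (List (B K))) (w.take n) ++ w.drop n := rfl

/-- truncation as a homomorphism -/
def trH (n : ℕ) : G K →* Equiv.Perm (List (B K)) where
  toFun := trP n
  map_one' := by
    ext1 w
    rw [trP_apply]
    simp
  map_mul' g h := by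
    ext1 w
    rw [Equiv.Perm.mul_apply, trP_apply, trP_apply, trP_apply]
    have h1 := take_app n ((h : Equiv.Perm (List (B K))) (w.take n)) w (G_length _ h.2 _)
    rw [h1.1, h1.2]
    rfl

theorem trH_apply (n : ℕ) (g : G K) (w : List (B K)) :
    trH n g w = (g : Equiv.Perm (List (B K))) (w.take n) ++ w.drop n := rfl

theorem Lam_mem [Fintype K] (φ : B K → Equiv.Perm (List (B K))) (h : ∀ v, φ v ∈ Kg K) :
    Lam φ ∈ Kg K := by
  classical
  have key : ∀ S : Finset (B K), Lam (fun v => if v ∈ S then φ v else 1) ∈ Kg K := by
    intro S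
    induction S using Finset.induction_on with
    | empty =>
      have : (fun v : B K => if v ∈ (∅ : Finset (B K)) then φ v else 1) = fun _ => 1 := by
        funext v; simp
      rw [this, Lam_one]
      exact (Kg K).one_mem
    | insert a S ha ih =>
      have e : (fun v => if v ∈ insert a S then φ v else 1) =
          fun v => (if v = a then φ a else 1) * (if v ∈ S then φ v else 1) := by
        funext v
        by_cases hv : v = a
        · subst hv
          simp [ha]
        · simp [hv]
      rw [e, Lam_mul]
      refine (Kg K).mul_mem ?_ ih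
      have := at'_mem a (φ a) (h a)
      unfold at' at this
      convert this using 2
  have := key Finset.univ
  simpa using this

/-- finitary moves belong to the group -/
theorem TP_mem [Fintype K] (n : ℕ) (i : Fin 4) (j : Option (Fin 4)) (hj : j ≠ some i)
    (c : List (B K) → K) (hc : ∀ h, n ≤ h.length → c h = 0) : TP i j c ∈ Kg K := by
  induction n generalizing c with
  | zero =>
    have : c = fun _ => 0 := funext fun h => hc h (Nat.zero_le _)
    rw [this, TP_zero]
    exact (Kg K).one_mem
  | succ n ih =>
    rw [TP_rec, ← R_eq]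
    refine (Kg K).mul_mem (R_mem_Kg i j hj _) (Lam_mem _ fun v => ih _ fun h hh => hc _ ?_)
    simpa using hh

theorem T_take (i : Fin 4) (j : Option (Fin 4)) (n : ℕ) (c : List (B K) → K) (w : List (B K)) :
    T i j c (w.take n) ++ w.drop n = T i j (fun h => if h.length < n then c h else 0) w := by
  induction w generalizing n c with
  | nil => simp [T]
  | cons v w ih =>
    cases n with
    | zero =>
      have : (fun h : List (B K) => if h.length < 0 then c h else 0) = fun _ => 0 := by
        funext h; simp
      rw [this, T_zero]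
      simp [T]
    | succ n =>
      rw [List.take_succ_cons, List.drop_succ_cons]
      simp only [T, List.cons_append, ih]
      congr 2
      funext h
      simp

theorem trH_mem [Fintype K] (n : ℕ) (g : G K) : trH n g ∈ Kg K := by
  obtain ⟨g, hg⟩ := g
  have hg' := hg
  unfold G at hg'
  induction hg' using Subgroup.closure_induction with
  | mem x hx =>
    obtain ⟨m, t, rfl⟩ := hx
    have e : trH n ⟨ln m t, hg⟩ = TP (data m).1 (data m).2.1
        (fun h => if h.length < n then t * lf (data m).2.2 h else 0) := by
      ext1 w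
      rw [trH_apply, TP_apply, ← T_take]
      rfl
    rw [e]
    exact TP_mem n _ _ (lnd866 m) _ fun h hh => if_neg (by omega)
  | one =>
    have : trH n (⟨1, hg⟩ : G K) = 1 := map_one (trH n)
    rw [this]
    exact (Kg K).one_mem
  | mul x y hx hy ihx ihy =>
    have : trH n (⟨x * y, hg⟩ : G K) = trH n ⟨x, hx⟩ * trH n ⟨y, hy⟩ :=
      map_mul (trH n) (⟨x, hx⟩ : G K) ⟨y, hy⟩
    rw [this]
    exact (Kg K).mul_mem (ihx hx) (ihy hy)
  | inv x hx ih =>
    have : trH n (⟨x⁻¹, hg⟩ : G K) = (trH n ⟨x, hx⟩)⁻¹ := map_inv (trH n) (⟨x, hx⟩ : G K)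
    rw [this]
    exact (Kg K).inv_mem (ih hx)

end trunc

section fin

variable [Fintype K]

/-- truncation as an endomorphism of the group -/
def trG (n : ℕ) : G K →* G K :=
  (trH n).codRestrict (G K) fun g => Kg_le (trH_mem n g)

theorem trG_apply (n : ℕ) (g : G K) (w : List (B K)) :
    (trG n g : Equiv.Perm (List (B K))) w =
      (g : Equiv.Perm (List (B K))) (w.take n) ++ w.drop n := rfl

theorem G_ext {g h : G K} (H : ∀ w, (g : Equiv.Perm (List (B K))) w =
    (h : Equiv.Perm (List (B K))) w) : g = h := Subtype.ext (Equiv.ext H)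

theorem trG_trG (m n : ℕ) (hmn : n ≤ m) (g : G K) : trG m (trG n g) = trG n g := by
  apply G_ext
  intro w
  rw [trG_apply, trG_apply, trG_apply, List.take_take, min_eq_left hmn, List.append_assoc]
  congr 1
  conv_rhs => rw [← List.take_append_drop m w]
  rw [List.drop_append]
  congr 1
  rw [List.length_take]
  rcases le_total m w.length with h | h
  · rw [min_eq_left h, Nat.sub_eq_zero_of_le hmn, List.drop_zero]
  · rw [List.drop_eq_nil_of_le h, List.drop_nil]

theorem trG_of_le {m n : ℕ} (hmn : n ≤ m) {g : G K} (h : trG n g = g) : trG m g = g := by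
  rw [← h]
  exact trG_trG m n hmn g

variable (K) in
/-- the finitary elements -/
def Hs : Subgroup (G K) where
  carrier := {g | ∃ n, trG n g = g}
  one_mem' := ⟨0, map_one _⟩
  mul_mem' := by
    rintro g h ⟨m, hm⟩ ⟨n, hn⟩
    refine ⟨max m n, ?_⟩
    rw [map_mul, trG_of_le (le_max_left m n) hm, trG_of_le (le_max_right m n) hn]
  inv_mem' := by
    rintro g ⟨m, hm⟩
    exact ⟨m, by rw [map_inv, hm]⟩

theorem mem_Hs (g : G K) : g ∈ Hs K ↔ ∃ n, trG n g = g := Iff.rfl

/-- truncation into the finitary elements -/
def tr (n : ℕ) : G K →* Hs K :=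
  (trG n).codRestrict (Hs K) fun g => ⟨n, trG_trG n n le_rfl g⟩

theorem coe_tr (n : ℕ) (g : G K) : ((tr n g : Hs K) : G K) = trG n g := rfl

theorem tr_ne_one (g : G K) (hg : g ≠ 1) : ∃ n₀, ∀ n ≥ n₀, tr n g ≠ 1 := by
  have : ∃ w, (g : Equiv.Perm (List (B K))) w ≠ w := by
    by_contra h
    push Not at h
    exact hg (G_ext fun w => h w)
  obtain ⟨w, hw⟩ := this
  refine ⟨w.length, fun n hn h => hw ?_⟩
  have h1 := congrArg (fun x : Hs K => ((x : G K) : Equiv.Perm (List (B K))) w) h
  have h2 : ((tr n g : Hs K) : Equiv.Perm (List (B K))) w = (g : Equiv.Perm (List (B K))) w := by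
    rw [coe_tr, trG_apply, List.take_of_length_le hn, List.drop_eq_nil_of_le hn, List.append_nil]
  exact h2.symm.trans h1

theorem tr_self (h : Hs K) : ∃ n₀, ∀ n ≥ n₀, tr n (h : G K) = h := by
  obtain ⟨n₀, hn₀⟩ := h.2
  exact ⟨n₀, fun n hn => Subtype.ext (trG_of_le hn hn₀)⟩

variable (K) in
/-- the finitary elements of depth `n` -/
def Lv (n : ℕ) : Subgroup (Hs K) where
  carrier := {g | trG n (g : G K) = g}
  one_mem' := map_one _
  mul_mem' := by
    intro g h hm hn
    show trG n ((g : G K) * (h : G K)) = (g : G K) * (h : G K)
    have hm' : trG n (g : G K) = g := hm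
    have hn' : trG n (h : G K) = h := hn
    rw [map_mul, hm', hn']
  inv_mem' := by
    intro g hm
    show trG n ((g : G K)⁻¹) = (g : G K)⁻¹
    have hm' : trG n (g : G K) = g := hm
    rw [map_inv, hm']

theorem mem_Lv (n : ℕ) (g : Hs K) : g ∈ Lv K n ↔ trG n (g : G K) = g := Iff.rfl

theorem Lv_mono : Monotone (Lv K) := fun _ _ hmn _ hg => trG_of_le hmn hg

theorem Lv_union (g : Hs K) : ∃ n, g ∈ Lv K n := g.2

theorem Lv_finite (n : ℕ) : Finite (Lv K n) := by
  have hfin : Finite {w : List (B K) // w.length ≤ n} :=
    (List.finite_length_le (B K) n).to_subtype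
  let F : Lv K n → ({w : List (B K) // w.length ≤ n} → {w : List (B K) // w.length ≤ n}) :=
    fun g w => ⟨((g : Hs K) : Equiv.Perm (List (B K))) w.1, by
      rw [G_length _ (g : Hs K).1.2]
      exact w.2⟩
  refine Finite.of_injective F fun g h hgh => ?_
  apply Subtype.ext
  apply Subtype.ext
  apply G_ext
  intro w
  have hg : trG n ((g : Hs K) : G K) = (g : Hs K) := g.2
  have hh : trG n ((h : Hs K) : G K) = (h : Hs K) := h.2
  rw [← hg, ← hh, trG_apply, trG_apply]
  congr 1
  have h1 := congrFun hgh ⟨w.take n, by rw [List.length_take]; exact min_le_left _ _⟩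
  exact congrArg Subtype.val h1

/-- the conjugates by finitary elements of a nontrivial element are infinitely many -/
theorem icc_Hs (g : G K) (hg : g ≠ 1) :
    (Set.range fun h : Hs K => (h : G K) * g * (h : G K)⁻¹).Infinite := by
  have : ∃ w, (g : Equiv.Perm (List (B K))) w ≠ w := by
    by_contra h
    push Not at h
    exact hg (G_ext fun w => h w)
  obtain ⟨v, hv⟩ := this
  let z : B K := fun _ => 0
  let x : Equiv.Perm (List (B K)) := R 0 none 1
  have hx : x ∈ Kg K := R_mem_Kg 0 none (by simp) 1
  let u : ℕ → List (B K) := fun k => v ++ List.replicate k z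
  let hk : ℕ → G K := fun k => ⟨atw (u k) x, Kg_le (atw_mem (u k) x hx)⟩
  have hkapp : ∀ k w, (hk k : Equiv.Perm (List (B K))) w = atw (u k) x w := fun _ _ => rfl
  have hxs : ∀ (m : ℕ) (w : List (B K)), 1 ≤ m → x (w.take m) ++ w.drop m = x w := by
    intro m w hm
    cases w with
    | nil => simp [x, R_eq, rho_nil]
    | cons a w =>
      obtain ⟨m, rfl⟩ : ∃ m', m = m' + 1 := ⟨m - 1, by omega⟩
      rw [List.take_succ_cons, List.drop_succ_cons]
      simp only [x, R_eq, rho_cons]
      simp
  have hmem : ∀ k, hk k ∈ Hs K := by
    intro k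
    refine ⟨(u k).length + 1, G_ext fun w => ?_⟩
    rw [trG_apply, hkapp, hkapp]
    by_cases hp : u k <+: w
    · obtain ⟨w', rfl⟩ := hp
      rw [atw_apply]
      have h1 : (u k ++ w').take ((u k).length + 1) = u k ++ w'.take 1 := by
        rw [List.take_append]
        simp
      have h2 : (u k ++ w').drop ((u k).length + 1) = w'.drop 1 := by
        rw [List.drop_append]
        simp
      rw [h1, h2, atw_apply, List.append_assoc, hxs 1 w' le_rfl]
    · rw [atw_apply_of _ _ _ hp]
      have hp' : ¬ u k <+: w.take ((u k).length + 1) := fun h =>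
        hp (h.trans (List.take_prefix _ _))
      rw [atw_apply_of _ _ _ hp', List.take_append_drop]
  have hinj : Function.Injective fun k : ℕ => (hk k) * g * (hk k)⁻¹ := by
    intro k l hkl
    by_contra hne
    -- the element `r` commutes with `g`
    set r : G K := (hk l)⁻¹ * hk k with hr
    have hcomm : r * g = g * r := by
      have h1 : hk k * g * (hk k)⁻¹ = hk l * g * (hk l)⁻¹ := hkl
      rw [hr]
      calc (hk l)⁻¹ * hk k * g = (hk l)⁻¹ * (hk k * g * (hk k)⁻¹) * hk k := by group
        _ = (hk l)⁻¹ * (hk l * g * (hk l)⁻¹) * hk k := by rw [h1]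
        _ = g * ((hk l)⁻¹ * hk k) := by group
    -- `r` fixes the words that do not extend `v`
    have hfix1 : ∀ k w, ¬ v <+: w → (hk k : Equiv.Perm (List (B K))) w = w := by
      intro k w hw
      rw [hkapp]
      exact atw_apply_of _ _ _ fun h => hw ((List.prefix_append v _).trans h)
    have hfix : ∀ w, ¬ v <+: w → (r : Equiv.Perm (List (B K))) w = w := by
      intro w hw
      have h1 : (r : Equiv.Perm (List (B K))) w =
          (hk l : Equiv.Perm (List (B K))).symm ((hk k : Equiv.Perm (List (B K))) w) := rfl
      rw [h1, hfix1 k w hw, Equiv.symm_apply_eq, hfix1 l w hw]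
    -- `r` moves some word
    have hmove : ∃ w, (r : Equiv.Perm (List (B K))) w ≠ w := by
      by_contra h
      push Not at h
      have hkl' : ∀ w, (hk k : Equiv.Perm (List (B K))) w = (hk l : Equiv.Perm (List (B K))) w := by
        intro w
        have h1 : (r : Equiv.Perm (List (B K))) w =
          (hk l : Equiv.Perm (List (B K))).symm ((hk k : Equiv.Perm (List (B K))) w) := rfl
        have h2 := h w
        rw [h1, Equiv.symm_apply_eq] at h2
        exact h2
      -- the shallower one moves a word that the deeper one fixes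
      have hx0 : x [z] ≠ [z] := by
        intro h
        simp only [x, root_step_522] at h
        have h2 := congrFun (List.cons.inj h).1 0
        simp [z] at h2
      have main : ∀ k l : ℕ, k < l → (∀ w, (hk k : Equiv.Perm (List (B K))) w =
          (hk l : Equiv.Perm (List (B K))) w) → False := by
        intro k l hlt he
        have h1 := he (u k ++ [z])
        rw [hkapp, hkapp, atw_apply] at h1
        have h2 : atw (u l) x (u k ++ [z]) = u k ++ [z] := by
          have h3 : u k ++ [z] = v ++ List.replicate (k + 1) z := by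
            show v ++ List.replicate k z ++ [z] = _
            rw [List.append_assoc, ← List.replicate_succ']
          by_cases hl : l = k + 1
          · subst hl
            have h4 : u (k + 1) = u k ++ [z] := h3.symm
            have h5 := atw_apply (u (k + 1)) x []
            rw [List.append_nil, h4] at h5
            rw [h4, h5]
            simp [x, R_eq, rho_nil]
          · apply atw_apply_of
            intro hp
            have h4 := hp.length_le
            simp only [u, List.length_append, List.length_replicate, List.length_singleton] at h4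
            omega
        rw [h2] at h1
        exact hx0 (List.append_cancel_left h1)
      rcases Nat.lt_or_gt_of_ne hne with h | h
      · exact main k l h hkl'
      · exact main l k h fun w => (hkl' w).symm
    obtain ⟨w, hw⟩ := hmove
    have hvw : v <+: w := by
      by_contra h
      exact hw (hfix w h)
    obtain ⟨w', rfl⟩ := hvw
    obtain ⟨s, hs, hsec⟩ := sec (g : Equiv.Perm (List (B K))) g.2 v
    have hnp : ¬ v <+: (g : Equiv.Perm (List (B K))) (v ++ w') := by
      rw [hsec]
      rintro ⟨t, ht⟩
      have := (List.append_inj ht (by rw [G_length _ g.2])).1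
      exact hv this.symm
    have h1 : (r : Equiv.Perm (List (B K))) ((g : Equiv.Perm (List (B K))) (v ++ w')) =
        (g : Equiv.Perm (List (B K))) ((r : Equiv.Perm (List (B K))) (v ++ w')) :=
      congrArg (fun y : G K => (y : Equiv.Perm (List (B K))) (v ++ w')) hcomm
    rw [hfix _ hnp] at h1
    exact hw ((g : Equiv.Perm (List (B K))).injective h1.symm)
  have hinf := Set.infinite_range_of_injective hinj
  refine hinf.mono ?_
  rintro _ ⟨k, rfl⟩
  exact ⟨⟨hk k, hmem k⟩, rfl⟩

end fin

end Pool.Agent.T6.H53.EX
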