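import Mathlib
import Pool.Agent.Helper278.RGRep
import Pool.Agent.Helper278.Model

set_option autoImplicit false
set_option linter.all false

/-!
The von Neumann subalgebra of `L(G)` generated by a subgroup, and asymptotic homomorphisms of the
group algebra.
-/

open scoped InnerProductSpace ComplexOrder BoundedContinuousFunction ComplexConjugate
open Filter Topology

namespace Pool.Agent.T6.H53.EX

open Pool.Agent.Helper278 Pool.Agent.Helper278.RG

section

variable {G : Type} [Group G] {K : Type} [NormedAddCommGroup K] [InnerProductSpace ℂ K]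
  [CompleteSpace K] (b : HilbertBasis G ℂ K)

theorem vnGen_mono {S T : Set (K →L[ℂ] K)} (h : S ⊆ T) (x : K →L[ℂ] K) (hx : x ∈ vnGen S) :
    x ∈ vnGen T := by
  have h1 : x ∈ StarSubalgebra.centralizer ℂ
    (StarSubalgebra.centralizer ℂ S : Set (K →L[ℂ] K)) := hx
  show x ∈ StarSubalgebra.centralizer ℂ (StarSubalgebra.centralizer ℂ T : Set (K →L[ℂ] K))
  rw [StarSubalgebra.mem_centralizer_iff] at h1 ⊢
  intro t ht
  apply h1
  have ht' : t ∈ StarSubalgebra.centralizer ℂ T := ht
  show t ∈ StarSubalgebra.centralizer ℂ S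
  rw [StarSubalgebra.mem_centralizer_iff] at ht' ⊢
  exact fun s hs => ht' s (h hs)

variable (S : Subgroup G)

/-- the von Neumann algebra generated by the translations by the elements of the subgroup `S` -/
noncomputable def NH : VonNeumannAlgebra K := vnGen (Set.range fun h : S => lamK b (h : G))

theorem NH_le (x : K →L[ℂ] K) (hx : x ∈ NH b S) : x ∈ LK b :=
  vnGen_mono (by rintro _ ⟨h, rfl⟩; exact ⟨_, rfl⟩) x hx

theorem mem_commN (t : K →L[ℂ] K) :
    t ∈ StarSubalgebra.centralizer ℂ (Set.range fun h : S => lamK b (h : G)) ↔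
      ∀ h : S, lamK b (h : G) * t = t * lamK b h := by
  rw [StarSubalgebra.mem_centralizer_iff (R := ℂ)]
  constructor
  · intro h g
    exact (h _ ⟨g, rfl⟩).1
  · rintro h _ ⟨g, rfl⟩
    refine ⟨h g, ?_⟩
    rw [star_lamK]
    exact h g⁻¹

theorem mem_NH (z : K →L[ℂ] K) : z ∈ NH b S ↔
    ∀ t : K →L[ℂ] K, (∀ h : S, lamK b (h : G) * t = t * lamK b h) → t * z = z * t := by
  have h0 : z ∈ NH b S ↔ ∀ t ∈ StarSubalgebra.centralizer ℂ
      (Set.range fun h : S => lamK b (h : G)), t * z = z * t ∧ star t * z = z * star t :=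
    StarSubalgebra.mem_centralizer_iff (R := ℂ)
  rw [h0]
  constructor
  · intro h t ht
    exact (h t ((mem_commN b S t).2 ht)).1
  · intro h t ht
    refine ⟨h t ((mem_commN b S t).1 ht), h (star t) ?_⟩
    exact (mem_commN b S _).1 (star_mem ht)

theorem lamK_memN (h : S) : lamK b (h : G) ∈ NH b S := by
  rw [mem_NH]
  intro t ht
  exact (ht h).symm

/-- inclusion -/
noncomputable def up (x : Elt (NH b S)) : Elt (LK b) := ⟨x, NH_le b S _ x.2⟩

/-- the inclusion as a star homomorphism -/
noncomputable def inc : Elt (NH b S) →⋆ₐ[ℂ] Elt (LK b) where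
  toFun := up b S
  map_one' := rfl
  map_mul' _ _ := rfl
  map_zero' := rfl
  map_add' _ _ := rfl
  commutes' _ := rfl
  map_star' _ := rfl

/-- the closed span of the basis vectors in the subgroup -/
noncomputable def PS : Submodule ℂ K :=
  (Submodule.span ℂ (Set.range fun h : S => b (h : G))).topologicalClosure

instance : CompleteSpace (PS b S) :=
  (Submodule.isClosed_topologicalClosure _).completeSpace_coe

theorem P_mem (h : S) : (PS b S).starProjection (b (h : G)) = b (h : G) := by
  rw [Submodule.starProjection_eq_self_iff]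
  exact Submodule.le_topologicalClosure _ (Submodule.subset_span ⟨h, rfl⟩)

theorem P_notMem (g : G) (hg : g ∉ S) : (PS b S).starProjection (b g) = 0 := by
  rw [Submodule.starProjection_apply_eq_zero_iff]
  have h1 : (Submodule.span ℂ (Set.range fun h : S => b (h : G))) ≤ (ℂ ∙ (b g))ᗮ := by
    rw [Submodule.span_le]
    rintro _ ⟨h, rfl⟩
    rw [SetLike.mem_coe, Submodule.mem_orthogonal_singleton_iff_inner_right]
    exact inner_bb b g h fun e => hg (e ▸ h.2)
  have h2 : PS b S ≤ (ℂ ∙ (b g))ᗮ :=
    Submodule.topologicalClosure_minimal _ h1 (Submodule.isClosed_orthogonal _)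
  rw [Submodule.mem_orthogonal]
  intro u hu
  have h3 := h2 hu
  rw [Submodule.mem_orthogonal_singleton_iff_inner_right] at h3
  rw [← inner_conj_symm, h3, map_zero]

theorem P_comm (h : S) : lamK b (h : G) * (PS b S).starProjection =
    (PS b S).starProjection * lamK b h := by
  apply ext_basis b
  intro g
  show lamK b (h : G) ((PS b S).starProjection (b g)) =
    (PS b S).starProjection (lamK b (h : G) (b g))
  rw [lamK_basis]
  by_cases hg : g ∈ S
  · have h1 := P_mem b S ⟨g, hg⟩
    have h2 := P_mem b S (h * ⟨g, hg⟩)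
    rw [h1, lamK_basis]
    exact h2.symm
  · rw [P_notMem b S g hg, map_zero, P_notMem b S]
    intro h1
    exact hg ((Subgroup.mul_mem_cancel_left S h.2).1 h1)

/-- the coefficients of the elements of the subalgebra are supported by the subgroup -/
theorem coef_zero (x : K →L[ℂ] K) (hx : x ∈ NH b S) (g : G) (hg : g ∉ S) :
    ⟪b g, x (b 1)⟫_ℂ = 0 := by
  rw [mem_NH] at hx
  have h1 := hx _ (P_comm b S)
  have h2 : x (b 1) = (PS b S).starProjection (x (b 1)) := by
    have h3 : ((PS b S).starProjection * x) (b 1) = (x * (PS b S).starProjection) (b 1) := by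
      rw [h1]
    have h4 : (x * (PS b S).starProjection) (b 1) = x (b 1) := by
      show x ((PS b S).starProjection (b 1)) = _
      have := P_mem b S 1
      rw [Subgroup.coe_one] at this
      rw [this]
    rw [h4] at h3
    exact h3.symm
  rw [h2, ← Submodule.inner_starProjection_left_eq_right, P_notMem b S g hg, inner_zero_left]

/-! ### traces and norms -/

/-- the trace of the subalgebra -/
noncomputable def trN (x : Elt (NH b S)) : ℂ := ⟪b 1, (x : K →L[ℂ] K) (b 1)⟫_ℂ

theorem trN_eq (x : Elt (NH b S)) : trN b S x = trG b (up b S x) := rfl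

theorem faithfulN : IsFaithfulTrace (trN b S) := by
  obtain ⟨h1, h2, h3⟩ := faithful_trG b
  refine ⟨h1, fun x y => h2 (up b S x) (up b S y), fun x hx => ?_⟩
  have h4 := h3 (up b S x) hx
  exact Subtype.ext (congrArg (fun z : Elt (LK b) => (z : K →L[ℂ] K)) h4)

theorem normalN : IsNormalPositive (NH b S) (trN b S) := by
  obtain ⟨ξ, h1, h2⟩ := normal_trG b
  exact ⟨ξ, h1, fun x => h2 (up b S x)⟩

/-- the bundled trace -/
noncomputable def TN : TracialState (NH b S) := mkState (NH b S) _ (normalN b S) (faithfulN b S)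

theorem TN_apply (x : Elt (NH b S)) : (TN b S).τ x = trN b S x := rfl

/-- the 2-norm -/
noncomputable def M2 (x : Elt (NH b S)) : ℝ := ‖(x : K →L[ℂ] K) (b 1)‖

theorem M2_eq (x : Elt (NH b S)) : M2 b S x = N2 b (up b S x) := rfl

theorem n2_TN (x : Elt (NH b S)) : n2 (TN b S).τ x = M2 b S x := by
  unfold n2
  have h1 : (TN b S).τ (star x * x) = ((M2 b S x ^ 2 : ℝ) : ℂ) := trG_star_mul b (up b S x)
  rw [h1, Complex.ofReal_re, Real.sqrt_sq (show 0 ≤ M2 b S x from norm_nonneg _)]

theorem twoNorm_M2 : TwoNorm (M := Elt (NH b S)) (M2 b S) where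
  nonneg _ := norm_nonneg _
  add x y := N2_add b (up b S x) (up b S y)
  smul c x := N2_smul b c (up b S x)
  left x y := N2_left b (up b S x) (up b S y)
  right x y := N2_right b (up b S x) (up b S y)
  star x := N2_star b (up b S x)
  le x := N2_le b (up b S x)

/-- the canonical unitaries of the subalgebra -/
noncomputable def LaN (h : S) : Elt (NH b S) := ⟨lamK b (h : G), lamK_memN b S h⟩

theorem up_LaN (h : S) : up b S (LaN b S h) = La b (h : G) := rfl

theorem up_inj {x y : Elt (NH b S)} (h : up b S x = up b S y) : x = y :=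
  Subtype.ext (congrArg (fun z : Elt (LK b) => (z : K →L[ℂ] K)) h)

/-- the homomorphism of the group algebra given by a homomorphism of groups -/
noncomputable def Psi (t : G →* S) : MonoidAlgebra ℂ G →ₐ[ℂ] Elt (NH b S) :=
  MonoidAlgebra.lift ℂ (Elt (NH b S)) G
    { toFun := fun g => LaN b S (t g)
      map_one' := by
        rw [map_one]
        exact up_inj b S (La_one b)
      map_mul' := fun g h => by
        rw [map_mul]
        exact up_inj b S (La_mul b _ _).symm }

theorem Psi_single (t : G →* S) (g : G) (c : ℂ) :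
    Psi b S t (MonoidAlgebra.single g c) = c • LaN b S (t g) := by
  unfold Psi
  rw [MonoidAlgebra.lift_single]
  rfl

theorem Lop_single (g : G) (c : ℂ) :
    Lop b (MonoidAlgebra.single g c) = c • La b g := by
  unfold Lop
  rw [MonoidAlgebra.lift_single]
  rfl

end

end Pool.Agent.T6.H53.EX
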