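import Mathlib
import Pool.Agent.T6.H53.EX.Op1

set_option autoImplicit false
set_option linter.all false

/-!
Extension of an asymptotically trace preserving sequence of homomorphisms of the group algebra to
the group von Neumann algebra.
-/

open scoped InnerProductSpace ComplexOrder BoundedContinuousFunction ComplexConjugate
open Filter Topology

namespace Pool.Agent.T6.H53.EX

open Pool.Agent.Helper278 Pool.Agent.Helper278.RG

section

variable {G : Type} [Group G] {K : Type} [NormedAddCommGroup K] [InnerProductSpace ℂ K]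
  [CompleteSpace K] (b : HilbertBasis G ℂ K) (S : Subgroup G)

theorem star_Psi (t : G →* S) (v : MonoidAlgebra ℂ G) : star (Psi b S t v) = Psi b S t (st v) := by
  induction v using MonoidAlgebra.induction_linear with
  | zero => rw [st_zero_487, map_zero, star_zero]
  | add x y hx hy => rw [st_add_487, map_add, map_add, star_add, hx, hy]
  | single m r =>
    rw [st_single_487, Psi_single, Psi_single, star_smul]
    congr 1
    rw [map_inv]
    exact up_inj b S (star_La b _)

theorem Psi_bdd (v : MonoidAlgebra ℂ G) : ∃ C : ℝ, 0 ≤ C ∧ ∀ t : G →* S, ‖Psi b S t v‖ ≤ C := by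
  induction v using MonoidAlgebra.induction_linear with
  | zero => exact ⟨0, le_rfl, fun t => by rw [map_zero, norm_zero]⟩
  | add x y hx hy =>
    obtain ⟨C, hC0, hC⟩ := hx
    obtain ⟨D, hD0, hD⟩ := hy
    refine ⟨C + D, add_nonneg hC0 hD0, fun t => ?_⟩
    rw [map_add]
    exact (norm_add_le _ _).trans (add_le_add (hC t) (hD t))
  | single m r =>
    refine ⟨‖r‖, norm_nonneg _, fun t => ?_⟩
    rw [Psi_single, norm_smul]
    refine mul_le_of_le_one_right (norm_nonneg _) ?_
    have h1 : star (LaN b S (t m)) * LaN b S (t m) = 1 := by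
      apply up_inj b S
      show star (La b _) * La b _ = _
      rw [star_La, La_mul, inv_mul_cancel, La_one]
      rfl
    have h2 := CStarRing.norm_star_mul_self (x := LaN b S (t m))
    rw [h1] at h2
    have h3 : ‖(1 : Elt (NH b S))‖ ≤ 1 := ContinuousLinearMap.norm_id_le
    nlinarith [norm_nonneg (LaN b S (t m))]

variable (T : ℕ → G →* S) (U : Ultrafilter ℕ)

/-- the assumptions on the sequence of homomorphisms -/
structure Asy : Prop where
  ne_one : ∀ g : G, g ≠ 1 → ∀ᶠ n in (U : Filter ℕ), T n g ≠ 1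
  self : ∀ h : S, ∀ᶠ n in (U : Filter ℕ), T n (h : G) = h

variable {T U}

theorem trN_LaN (h : S) : trN b S (LaN b S h) = ⟪b 1, b (h : G)⟫_ℂ := by
  show ⟪b 1, lamK b (h : G) (b 1)⟫_ℂ = _
  rw [lamK_basis, mul_one]

theorem trN_add (x y : Elt (NH b S)) : trN b S (x + y) = trN b S x + trN b S y :=
  map_add (trG b) (up b S x) (up b S y)

theorem trN_smul (c : ℂ) (x : Elt (NH b S)) : trN b S (c • x) = c * trN b S x :=
  map_smul (trG b) c (up b S x)

theorem tr_Psi (hT : Asy S T U) (v : MonoidAlgebra ℂ G) :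
    ∀ᶠ n in (U : Filter ℕ), trN b S (Psi b S (T n) v) = trG b (Lop b v) := by
  induction v using MonoidAlgebra.induction_linear with
  | zero =>
    refine Eventually.of_forall fun n => ?_
    rw [map_zero, map_zero, map_zero]
    exact (map_zero (trG b))
  | add x y hx hy =>
    filter_upwards [hx, hy] with n h1 h2
    rw [map_add, map_add, map_add, trN_add, h1, h2]
  | single m r =>
    have e : trG b (Lop b (MonoidAlgebra.single m r)) = r * ⟪b 1, b m⟫_ℂ := by
      rw [Lop_single, map_smul, smul_eq_mul]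
      congr 1
      show ⟪b 1, lamK b m (b 1)⟫_ℂ = _
      rw [lamK_basis, mul_one]
    by_cases hm : m = 1
    · refine Eventually.of_forall fun n => ?_
      rw [e, Psi_single, trN_smul, trN_LaN, hm, map_one (T n), Subgroup.coe_one]
    · filter_upwards [hT.ne_one m hm] with n hn
      rw [e, Psi_single, trN_smul, trN_LaN, inner_bb b 1 m (Ne.symm hm), inner_bb b 1 _]
      intro h
      exact hn (Subtype.ext h.symm)

theorem M2_sq (x : Elt (NH b S)) : trN b S (star x * x) = ((M2 b S x ^ 2 : ℝ) : ℂ) :=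
  trG_star_mul b (up b S x)

theorem M2_Psi (hT : Asy S T U) (v : MonoidAlgebra ℂ G) :
    ∀ᶠ n in (U : Filter ℕ), M2 b S (Psi b S (T n) v) = N2 b (Lop b v) := by
  filter_upwards [tr_Psi b S hT (st v * v)] with n hn
  rw [map_mul, map_mul, ← star_Psi, ← star_Lop, M2_sq, trG_star_mul] at hn
  have h2 : M2 b S (Psi b S (T n) v) ^ 2 = N2 b (Lop b v) ^ 2 := by exact_mod_cast hn
  exact (pow_left_inj₀ (norm_nonneg _) (norm_nonneg _) two_ne_zero).1 h2

/-- `y` is asymptotically the image of `x` -/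
def Rel (T : ℕ → G →* S) (U : Ultrafilter ℕ) (x : Elt (LK b)) (y : ℕ → Elt (NH b S)) : Prop :=
  ∀ ε : ℝ, 0 < ε → ∃ v : MonoidAlgebra ℂ G, N2 b (x - Lop b v) < ε ∧
    ∀ᶠ n in (U : Filter ℕ), M2 b S (y n - Psi b S (T n) v) < ε

theorem M2_add (x y : Elt (NH b S)) : M2 b S (x + y) ≤ M2 b S x + M2 b S y :=
  (twoNorm_M2 b S).add x y

theorem M2_sub_comm (x y : Elt (NH b S)) : M2 b S (x - y) = M2 b S (y - x) :=
  N2_sub_comm b (up b S x) (up b S y)

theorem M2_tri (x y z : Elt (NH b S)) : M2 b S (x - z) ≤ M2 b S (x - y) + M2 b S (y - z) :=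
  N2_tri b (up b S x) (up b S y) (up b S z)

theorem M2_nonneg (x : Elt (NH b S)) : 0 ≤ M2 b S x := norm_nonneg _

theorem N2_nonneg' (x : Elt (LK b)) : 0 ≤ N2 b x := norm_nonneg _

theorem Rel.add {x x' : Elt (LK b)} {y y' : ℕ → Elt (NH b S)} (h : Rel b S T U x y)
    (h' : Rel b S T U x' y') : Rel b S T U (x + x') (fun n => y n + y' n) := by
  intro ε hε
  obtain ⟨v, hv1, hv2⟩ := h (ε / 2) (by positivity)
  obtain ⟨w, hw1, hw2⟩ := h' (ε / 2) (by positivity)
  refine ⟨v + w, ?_, ?_⟩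
  · rw [map_add]
    have : x + x' - (Lop b v + Lop b w) = (x - Lop b v) + (x' - Lop b w) := by abel
    rw [this]
    refine (N2_add b _ _).trans_lt ?_
    linarith
  · filter_upwards [hv2, hw2] with n h1 h2
    rw [map_add]
    have : y n + y' n - (Psi b S (T n) v + Psi b S (T n) w) =
      (y n - Psi b S (T n) v) + (y' n - Psi b S (T n) w) := by abel
    rw [this]
    refine (M2_add b S _ _).trans_lt ?_
    linarith

theorem Rel.smul {x : Elt (LK b)} {y : ℕ → Elt (NH b S)} (c : ℂ) (h : Rel b S T U x y) :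
    Rel b S T U (c • x) (fun n => c • y n) := by
  intro ε hε
  obtain ⟨v, hv1, hv2⟩ := h (ε / (‖c‖ + 1)) (by positivity)
  have hc : ‖c‖ * (ε / (‖c‖ + 1)) < ε := by
    rw [mul_div_assoc']
    rw [div_lt_iff₀ (by positivity)]
    nlinarith [norm_nonneg c]
  refine ⟨c • v, ?_, ?_⟩
  · rw [map_smul, ← smul_sub, N2_smul]
    exact (mul_le_mul_of_nonneg_left hv1.le (norm_nonneg _)).trans_lt hc
  · filter_upwards [hv2] with n h1
    rw [map_smul, ← smul_sub, (twoNorm_M2 b S).smul]
    exact (mul_le_mul_of_nonneg_left h1.le (norm_nonneg _)).trans_lt hc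

theorem Rel.star {x : Elt (LK b)} {y : ℕ → Elt (NH b S)} (h : Rel b S T U x y) :
    Rel b S T U (star x) (fun n => star (y n)) := by
  intro ε hε
  obtain ⟨v, hv1, hv2⟩ := h ε hε
  refine ⟨st v, ?_, ?_⟩
  · rw [← star_Lop, ← star_sub, N2_star]
    exact hv1
  · filter_upwards [hv2] with n h1
    rw [← star_Psi, ← star_sub, (twoNorm_M2 b S).star]
    exact h1

theorem Rel.mul {x x' : Elt (LK b)} {y y' : ℕ → Elt (NH b S)} (h : Rel b S T U x y)
    (h' : Rel b S T U x' y') (C : ℝ) (hC : ∀ n, ‖y n‖ ≤ C) :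
    Rel b S T U (x * x') (fun n => y n * y' n) := by
  intro ε hε
  have hC0 : 0 ≤ C := (norm_nonneg _).trans (hC 0)
  obtain ⟨w, hw1, hw2⟩ := h' (ε / (2 * (‖x‖ + C + 1))) (by positivity)
  obtain ⟨D, hD0, hD⟩ := Psi_bdd b S w
  obtain ⟨v, hv1, hv2⟩ := h (ε / (2 * (‖Lop b w‖ + D + 1))) (by positivity)
  have e1 : (‖x‖ + C) * (ε / (2 * (‖x‖ + C + 1))) < ε / 2 := by
    have h0 : 0 ≤ ‖x‖ + C := add_nonneg (norm_nonneg _) hC0
    have : (‖x‖ + C) * (ε / (2 * (‖x‖ + C + 1))) = (ε / 2) * ((‖x‖ + C) / (‖x‖ + C + 1)) := by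
      field_simp
    rw [this]
    have h1 : (‖x‖ + C) / (‖x‖ + C + 1) < 1 := by
      rw [div_lt_one (by positivity)]; linarith
    nlinarith
  have e2 : (‖Lop b w‖ + D) * (ε / (2 * (‖Lop b w‖ + D + 1))) < ε / 2 := by
    have h0 : 0 ≤ ‖Lop b w‖ + D := add_nonneg (norm_nonneg _) hD0
    have : (‖Lop b w‖ + D) * (ε / (2 * (‖Lop b w‖ + D + 1))) =
      (ε / 2) * ((‖Lop b w‖ + D) / (‖Lop b w‖ + D + 1)) := by
      field_simp
    rw [this]
    have h1 : (‖Lop b w‖ + D) / (‖Lop b w‖ + D + 1) < 1 := by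
      rw [div_lt_one (by positivity)]; linarith
    nlinarith
  set δ := ε / (2 * (‖x‖ + C + 1)) with hδ
  set δ' := ε / (2 * (‖Lop b w‖ + D + 1)) with hδ'
  have hδ0 : 0 < δ := by positivity
  have hδ0' : 0 < δ' := by positivity
  refine ⟨v * w, ?_, ?_⟩
  · rw [map_mul]
    have : x * x' - Lop b v * Lop b w = x * (x' - Lop b w) + (x - Lop b v) * Lop b w := by
      noncomm_ring
    rw [this]
    have h1 := N2_add b (x * (x' - Lop b w)) ((x - Lop b v) * Lop b w)
    have h2 := N2_left b x (x' - Lop b w)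
    have h3 := N2_right b (x - Lop b v) (Lop b w)
    have h4 : ‖x‖ * N2 b (x' - Lop b w) ≤ ‖x‖ * δ :=
      mul_le_mul_of_nonneg_left hw1.le (norm_nonneg _)
    have h5 : N2 b (x - Lop b v) * ‖Lop b w‖ ≤ δ' * ‖Lop b w‖ :=
      mul_le_mul_of_nonneg_right hv1.le (norm_nonneg _)
    nlinarith [mul_nonneg hC0 hδ0.le, mul_nonneg hD0 hδ0'.le]
  · filter_upwards [hw2, hv2] with n g1 g2
    rw [map_mul]
    have : y n * y' n - Psi b S (T n) v * Psi b S (T n) w = y n * (y' n - Psi b S (T n) w) +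
      (y n - Psi b S (T n) v) * Psi b S (T n) w := by
      noncomm_ring
    rw [this]
    have h1 := M2_add b S (y n * (y' n - Psi b S (T n) w))
      ((y n - Psi b S (T n) v) * Psi b S (T n) w)
    have h2 := (twoNorm_M2 b S).left (y n) (y' n - Psi b S (T n) w)
    have h3 := (twoNorm_M2 b S).right (y n - Psi b S (T n) v) (Psi b S (T n) w)
    have h4 : ‖y n‖ * M2 b S (y' n - Psi b S (T n) w) ≤ C * δ :=
      mul_le_mul (hC n) g1.le (M2_nonneg b S _) hC0
    have h5 : M2 b S (y n - Psi b S (T n) v) * ‖Psi b S (T n) w‖ ≤ δ' * D :=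
      mul_le_mul g2.le (hD _) (norm_nonneg _) hδ0'.le
    nlinarith [mul_nonneg (norm_nonneg x) hδ0.le, mul_nonneg (norm_nonneg (Lop b w)) hδ0'.le]

theorem Rel.Lop (v : MonoidAlgebra ℂ G) : Rel b S T U (Lop b v) (fun n => Psi b S (T n) v) := by
  intro ε hε
  refine ⟨v, ?_, Eventually.of_forall fun n => ?_⟩
  · rw [sub_self]
    have : N2 b (0 : Elt (LK b)) = 0 := by
      have := N2_smul b 0 (0 : Elt (LK b))
      simpa using this
    rw [this]; exact hε
  · rw [sub_self]
    have : M2 b S (0 : Elt (NH b S)) = 0 := by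
      have := (twoNorm_M2 b S).smul 0 (0 : Elt (NH b S))
      simpa using this
    rw [this]; exact hε

theorem Rel.norm (hT : Asy S T U) {x : Elt (LK b)} {y : ℕ → Elt (NH b S)}
    (h : Rel b S T U x y) : Tendsto (fun n => M2 b S (y n)) U (𝓝 (N2 b x)) := by
  rw [Metric.tendsto_nhds]
  intro ε hε
  obtain ⟨v, hv1, hv2⟩ := h (ε / 2) (by positivity)
  filter_upwards [hv2, M2_Psi b S hT v] with n h1 h2
  rw [Real.dist_eq, abs_lt]
  have h3 := M2_tri b S (y n) (Psi b S (T n) v) 0
  have h4 := M2_tri b S (Psi b S (T n) v) (y n) 0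
  have h5 := N2_tri b x (Pool.Agent.Helper278.RG.Lop b v) 0
  have h6 := N2_tri b (Pool.Agent.Helper278.RG.Lop b v) x 0
  rw [sub_zero, sub_zero] at h3 h4 h5 h6
  rw [M2_sub_comm b S (Psi b S (T n) v) (y n)] at h4
  rw [N2_sub_comm b (Pool.Agent.Helper278.RG.Lop b v) x] at h6
  constructor <;> linarith

theorem Rel.sub {x x' : Elt (LK b)} {y y' : ℕ → Elt (NH b S)} (h : Rel b S T U x y)
    (h' : Rel b S T U x' y') : Rel b S T U (x - x') (fun n => y n - y' n) := by
  have h1 := Rel.add b S h (Rel.smul b S (-1) h')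
  have e1 : x + (-1 : ℂ) • x' = x - x' := by rw [neg_one_smul, sub_eq_add_neg]
  have e2 : (fun n => y n + (-1 : ℂ) • y' n) = fun n => y n - y' n := by
    funext n
    rw [neg_one_smul, sub_eq_add_neg]
  rw [e1, e2] at h1
  exact h1

theorem trN_le (x : Elt (NH b S)) : ‖trN b S x‖ ≤ M2 b S x := by
  have := norm_inner_le_norm (𝕜 := ℂ) (b 1) ((x : K →L[ℂ] K) (b 1))
  rw [b.orthonormal.1 1, one_mul] at this
  exact this

theorem trG_le (x : Elt (LK b)) : ‖trG b x‖ ≤ N2 b x := by
  have := norm_inner_le_norm (𝕜 := ℂ) (b 1) ((x : K →L[ℂ] K) (b 1))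
  rw [b.orthonormal.1 1, one_mul] at this
  exact this

theorem Rel.trace (hT : Asy S T U) {x : Elt (LK b)} {y : ℕ → Elt (NH b S)}
    (h : Rel b S T U x y) : Tendsto (fun n => trN b S (y n)) U (𝓝 (trG b x)) := by
  rw [Metric.tendsto_nhds]
  intro ε hε
  obtain ⟨v, hv1, hv2⟩ := h (ε / 2) (by positivity)
  filter_upwards [hv2, tr_Psi b S hT v] with n h1 h2
  rw [dist_eq_norm]
  have e1 : trN b S (y n) - trG b x = trN b S (y n - Psi b S (T n) v) -
      trG b (x - Pool.Agent.Helper278.RG.Lop b v) := by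
    have e2 : trN b S (y n - Psi b S (T n) v) = trN b S (y n) - trN b S (Psi b S (T n) v) :=
      map_sub (trG b) (up b S (y n)) (up b S (Psi b S (T n) v))
    rw [e2, map_sub, h2]
    ring
  rw [e1]
  refine (norm_sub_le _ _).trans_lt ?_
  have h3 := trN_le b S (y n - Psi b S (T n) v)
  have h4 := trG_le b (x - Pool.Agent.Helper278.RG.Lop b v)
  linarith

end

end Pool.Agent.T6.H53.EX
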