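import Mathlib
import Pool.Agent.T6.H53.EX.Op2

set_option autoImplicit false
set_option linter.all false

/-!
Every element of `L(G)` is related to a bounded sequence.
-/

open scoped InnerProductSpace ComplexOrder BoundedContinuousFunction ComplexConjugate
open Filter Topology

namespace Pool.Agent.T6.H53.EX

open Pool.Agent.Helper278 Pool.Agent.Helper278.RG

section

variable {G : Type} [Group G] {K : Type} [NormedAddCommGroup K] [InnerProductSpace ℂ K]
  [CompleteSpace K] (b : HilbertBasis G ℂ K) (S : Subgroup G)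
variable {T : ℕ → G →* S} {U : Ultrafilter ℕ}

/-- the function `kf` of self-adjoint elements of the group algebra -/
theorem rel_kf (hT : Asy S T U) (a : MonoidAlgebra ℂ G) (ha : st a = a) :
    Rel b S T U (cfc kf (Lop b a)) (fun n => cfc kf (Psi b S (T n) a)) := by
  have hsa : IsSelfAdjoint (Lop b a) := by
    rw [isSelfAdjoint_iff, star_Lop, ha]
  have hsn : ∀ n, IsSelfAdjoint (Psi b S (T n) a) := fun n => by
    rw [isSelfAdjoint_iff, star_Psi, ha]
  obtain ⟨-, hr2, hr3, hr4, -, -, -⟩ := rf_facts_304 (Lop b a) hsa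
  have hn := fun n => rf_facts_304 (Psi b S (T n) a) (hsn n)
  set A := Lop b a with hA
  set r := cfc rf_304 A with hr
  obtain ⟨D, hD0, hD⟩ := Psi_bdd b S a
  intro ε hε
  obtain ⟨δ, hδ0, hδ1, hδ2⟩ : ∃ δ : ℝ, 0 < δ ∧ 2 * (δ * ‖A‖) < ε ∧
      2 * ((‖(1 + A * A : Elt (LK b))‖ * δ + δ) * D) < ε := by
    refine ⟨ε / (2 * ‖A‖ + 2 * (‖(1 + A * A : Elt (LK b))‖ + 1) * D + 1), by positivity, ?_, ?_⟩
    · rw [div_mul_eq_mul_div, mul_div_assoc', div_lt_iff₀ (by positivity)]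
      have : 0 ≤ 2 * (‖(1 + A * A : Elt (LK b))‖ + 1) * D := by positivity
      nlinarith [norm_nonneg A, mul_nonneg hε.le this]
    · have e : 2 * ((‖(1 + A * A : Elt (LK b))‖ * (ε / (2 * ‖A‖ + 2 * (‖(1 + A * A : Elt (LK b))‖ + 1) * D + 1)) +
        ε / (2 * ‖A‖ + 2 * (‖(1 + A * A : Elt (LK b))‖ + 1) * D + 1)) * D) =
        ε * (2 * (‖(1 + A * A : Elt (LK b))‖ + 1) * D) / (2 * ‖A‖ + 2 * (‖(1 + A * A : Elt (LK b))‖ + 1) * D + 1) := by
        ring
      rw [e, div_lt_iff₀ (by positivity)]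
      have : 0 ≤ ‖A‖ := norm_nonneg A
      nlinarith [mul_nonneg hε.le this]
  obtain ⟨_, ⟨v, rfl⟩, hv⟩ := dense_CG b r δ hδ0
  refine ⟨(2 : ℂ) • (v * a), ?_, ?_⟩
  · have e1 : cfc kf A - Lop b ((2 : ℂ) • (v * a)) = (2 : ℂ) • ((r - Lop b v) * A) := by
      rw [hr4, map_smul, map_mul, sub_mul, smul_sub]
      congr 1
    rw [e1, N2_smul]
    have h1 := N2_right b (r - Lop b v) A
    have h2 : N2 b (r - Lop b v) * ‖A‖ ≤ δ * ‖A‖ :=
      mul_le_mul_of_nonneg_right hv.le (norm_nonneg _)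
    have h3 : ‖(2 : ℂ)‖ = 2 := by norm_num
    rw [h3]
    linarith
  · have hrel : Tendsto (fun n => M2 b S (Psi b S (T n) (1 - (1 + a * a) * v))) U
        (𝓝 (N2 b (Lop b (1 - (1 + a * a) * v)))) :=
      Rel.norm b S hT (Rel.Lop b S _)
    have h5 : N2 b (Lop b (1 - (1 + a * a) * v)) ≤ ‖(1 + A * A : Elt (LK b))‖ * δ := by
      have e2 : Lop b (1 - (1 + a * a) * v) = (1 + A * A) * (r - Lop b v) := by
        rw [map_sub, map_mul, map_add, map_mul, map_one, mul_sub, hr3]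
      rw [e2]
      exact (N2_left b _ _).trans (mul_le_mul_of_nonneg_left hv.le (norm_nonneg _))
    have h6 : ∀ᶠ n in (U : Filter ℕ), M2 b S (Psi b S (T n) (1 - (1 + a * a) * v)) <
        ‖(1 + A * A : Elt (LK b))‖ * δ + δ :=
      hrel.eventually_lt_const (by linarith)
    filter_upwards [h6] with n h7
    obtain ⟨g1, g2, g3, g4, -, -, -⟩ := hn n
    set An := Psi b S (T n) a with hAn
    set rn := cfc rf_304 An with hrn
    have e1 : cfc kf An - Psi b S (T n) ((2 : ℂ) • (v * a)) =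
        (2 : ℂ) • ((rn - Psi b S (T n) v) * An) := by
      rw [g4, map_smul, map_mul, sub_mul, smul_sub]
      congr 1
    have e3 : rn - Psi b S (T n) v = rn * Psi b S (T n) (1 - (1 + a * a) * v) := by
      rw [map_sub, map_mul, map_add, map_mul, map_one, mul_sub, mul_one, ← mul_assoc, g2, one_mul]
    rw [e1, (twoNorm_M2 b S).smul]
    have h8 := (twoNorm_M2 b S).right (rn - Psi b S (T n) v) An
    have h9 : M2 b S (rn - Psi b S (T n) v) ≤ ‖(1 + A * A : Elt (LK b))‖ * δ + δ := by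
      rw [e3]
      refine ((twoNorm_M2 b S).left _ _).trans ?_
      calc ‖rn‖ * M2 b S (Psi b S (T n) (1 - (1 + a * a) * v)) ≤
          1 * M2 b S (Psi b S (T n) (1 - (1 + a * a) * v)) :=
            mul_le_mul_of_nonneg_right g1 (M2_nonneg b S _)
        _ ≤ _ := by rw [one_mul]; exact h7.le
    have h10 : M2 b S (rn - Psi b S (T n) v) * ‖An‖ ≤ (‖(1 + A * A : Elt (LK b))‖ * δ + δ) * D :=
      mul_le_mul h9 (hD _) (norm_nonneg _) (by positivity)
    have h3 : ‖(2 : ℂ)‖ = 2 := by norm_num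
    rw [h3]
    linarith

theorem kf_norm_le {M : Type} [CStarAlgebra M] (a : M) : ‖cfc kf a‖ ≤ 1 :=
  norm_cfc_le zero_le_one (fun t _ => kap_kf_le_264 t)

/-- closure under 2-norm limits -/
theorem rel_limit (hU : ∀ n, {n} ∉ U) (hT : Asy S T U) (x : Elt (LK b)) (X : ℕ → Elt (LK b))
    (Y : ℕ → ℕ → Elt (NH b S)) (hrel : ∀ k, Rel b S T U (X k) (Y k))
    (hY : ∀ k n, ‖Y k n‖ ≤ 1) (hX : ∀ k, N2 b (x - X k) < (1 / 2) ^ k) :
    ∃ y : ℕ → Elt (NH b S), (∀ n, ‖y n‖ ≤ 1) ∧ Rel b S T U x y := by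
  classical
  have hatTop : (U : Filter ℕ) ≤ atTop := by
    rw [← Nat.cofinite_eq_atTop]
    rcases U.le_cofinite_or_eq_pure with h | ⟨a, ha⟩
    · exact h
    · refine absurd ?_ (hU a)
      rw [ha]
      exact Filter.mem_pure.2 (Set.mem_singleton a)
  -- pairs are asymptotically close
  have hpair : ∀ i j, i ≤ j → ∀ᶠ n in (U : Filter ℕ), M2 b S (Y i n - Y j n) < 3 * (1 / 2) ^ i := by
    intro i j hij
    have h1 := Rel.norm b S hT (Rel.sub b S (hrel i) (hrel j))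
    refine h1.eventually_lt_const ?_
    have h2 := N2_tri b (X i) x (X j)
    rw [N2_sub_comm b (X i) x] at h2
    have h3 := hX i
    have h4 := hX j
    have h5 : ((1 : ℝ) / 2) ^ j ≤ (1 / 2) ^ i :=
      pow_le_pow_of_le_one (by norm_num) (by norm_num) hij
    have h6 : (0 : ℝ) < (1 / 2) ^ i := by positivity
    linarith
  let A : ℕ → Set ℕ := fun k => {n | k ≤ n ∧ ∀ j ≤ k, ∀ i ≤ j, M2 b S (Y i n - Y j n) < 3 * (1 / 2) ^ i}
  have hA : ∀ k, ∀ᶠ n in (U : Filter ℕ), n ∈ A k := by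
    intro k
    have h1 : ∀ᶠ n in (U : Filter ℕ), k ≤ n := hatTop (eventually_ge_atTop k)
    have h2 : ∀ᶠ n in (U : Filter ℕ), ∀ j ∈ Set.Iic k, ∀ i ∈ Set.Iic j,
        M2 b S (Y i n - Y j n) < 3 * (1 / 2) ^ i :=
      (Set.Finite.eventually_all (Set.finite_Iic k)).2 fun j _ =>
        (Set.Finite.eventually_all (Set.finite_Iic j)).2 fun i hi => hpair i j hi
    filter_upwards [h1, h2] with n h3 h4
    exact ⟨h3, h4⟩
  let κ : ℕ → ℕ := fun n => Nat.findGreatest (fun k => n ∈ A k) n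
  have hκ : ∀ j, ∀ᶠ n in (U : Filter ℕ), j ≤ κ n ∧ n ∈ A (κ n) := by
    intro j
    filter_upwards [hA j] with n hn
    refine ⟨Nat.le_findGreatest hn.1 hn, ?_⟩
    exact Nat.findGreatest_spec (P := fun k => n ∈ A k) hn.1 hn
  refine ⟨fun n => Y (κ n) n, fun n => hY _ n, ?_⟩
  intro ε hε
  obtain ⟨j, hj⟩ : ∃ j : ℕ, ((1 : ℝ) / 2) ^ j < ε / 8 :=
    exists_pow_lt_of_lt_one (by positivity) (by norm_num)
  obtain ⟨v, hv1, hv2⟩ := hrel j (ε / 4) (by positivity)
  refine ⟨v, ?_, ?_⟩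
  · have h1 := N2_tri b x (X j) (Lop b v)
    have h2 := hX j
    linarith
  · filter_upwards [hκ j, hv2] with n h1 h2
    have h3 := h1.2.2 (κ n) le_rfl j h1.1
    have h4 := M2_tri b S (Y (κ n) n) (Y j n) (Psi b S (T n) v)
    rw [M2_sub_comm b S (Y (κ n) n) (Y j n)] at h4
    linarith

theorem exists_rel_sa (hU : ∀ n, {n} ∉ U) (hT : Asy S T U) (x : Elt (LK b))
    (hx : IsSelfAdjoint x) (h1 : ‖x‖ ≤ 1) :
    ∃ y : ℕ → Elt (NH b S), (∀ n, ‖y n‖ ≤ 1) ∧ Rel b S T U x y := by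
  obtain ⟨z, hz, hzx⟩ := kap_surj x hx h1
  have hd : ∀ k : ℕ, ∃ a : MonoidAlgebra ℂ G, st a = a ∧ N2 b (z - Lop b a) < (1 / 2) ^ k / 4 := by
    intro k
    obtain ⟨_, ⟨c, rfl⟩, hc⟩ := dense_CG b z ((1 / 2) ^ k / 4) (by positivity)
    refine ⟨(1 / 2 : ℂ) • (c + st c), ?_, ?_⟩
    · have hsm : ∀ (r : ℂ) (w : MonoidAlgebra ℂ G), st (r • w) = conj r • st w := by
        intro r w
        induction w using MonoidAlgebra.induction_linear with
        | zero => rw [smul_zero, st_zero_487, smul_zero]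
        | add x y hx hy => rw [smul_add, st_add_487, st_add_487, smul_add, hx, hy]
        | single m s =>
          rw [MonoidAlgebra.smul_single, st_single_487, st_single_487, MonoidAlgebra.smul_single,
            smul_eq_mul, smul_eq_mul, map_mul]
      rw [hsm, st_add_487, st_st, add_comm (st c)]
      congr 1
      rw [map_div₀, map_one, Complex.conj_ofNat]
    · have h2 : z - Lop b ((1 / 2 : ℂ) • (c + st c)) = (1 / 2 : ℂ) • (z - Lop b c) +
          (1 / 2 : ℂ) • star (z - Lop b c) := by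
        rw [star_sub, hz.star_eq, star_Lop, map_smul, map_add]
        module
      have h3 : ‖(1 / 2 : ℂ)‖ = 1 / 2 := by norm_num
      rw [h2]
      refine (N2_add b _ _).trans_lt ?_
      rw [N2_smul, N2_smul, N2_star, h3]
      have hc' : N2 b (z - Lop b c) < (1 / 2) ^ k / 4 := hc
      linarith
  choose a ha1 ha2 using hd
  have hsa : ∀ k, IsSelfAdjoint (Lop b (a k)) := fun k => by
    rw [isSelfAdjoint_iff, star_Lop, ha1]
  refine rel_limit b S hU hT x (fun k => cfc kf (Lop b (a k)))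
    (fun k n => cfc kf (Psi b S (T n) (a k))) (fun k => rel_kf b S hT (a k) (ha1 k))
    (fun k n => kf_norm_le _) (fun k => ?_)
  rw [← hzx]
  have h2 := kap_lip (twoNorm_N2 b) z (Lop b (a k)) hz (hsa k)
  have h3 := ha2 k
  linarith

theorem exists_rel (hU : ∀ n, {n} ∉ U) (hT : Asy S T U) (x : Elt (LK b)) :
    ∃ y : ℕ → Elt (NH b S), (∃ C : ℝ, ∀ n, ‖y n‖ ≤ C) ∧ Rel b S T U x y := by
  have hsa : ∀ x : Elt (LK b), IsSelfAdjoint x →
      ∃ y : ℕ → Elt (NH b S), (∃ C : ℝ, ∀ n, ‖y n‖ ≤ C) ∧ Rel b S T U x y := by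
    intro x hx
    have e1 : IsSelfAdjoint ((((‖x‖ + 1)⁻¹ : ℝ) : ℂ) • x) := by
      rw [isSelfAdjoint_iff, star_smul, hx.star_eq, Complex.star_def, Complex.conj_ofReal]
    have e2 : ‖(((‖x‖ + 1)⁻¹ : ℝ) : ℂ) • x‖ ≤ 1 := by
      rw [norm_smul, Complex.norm_real, Real.norm_eq_abs, abs_of_pos (by positivity),
        inv_mul_le_iff₀ (by positivity), mul_one]
      linarith
    obtain ⟨y, hy, hr⟩ := exists_rel_sa b S hU hT ((((‖x‖ + 1)⁻¹ : ℝ) : ℂ) • x) e1 e2
    · refine ⟨fun n => ((‖x‖ + 1 : ℝ) : ℂ) • y n, ⟨‖x‖ + 1, fun n => ?_⟩, ?_⟩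
      · rw [norm_smul, Complex.norm_real, Real.norm_eq_abs, abs_of_pos (by positivity)]
        exact mul_le_of_le_one_right (by positivity) (hy n)
      · have h1 := Rel.smul b S ((‖x‖ + 1 : ℝ) : ℂ) hr
        have h2 : ((‖x‖ + 1 : ℝ) : ℂ) • ((((‖x‖ + 1)⁻¹ : ℝ) : ℂ) • x) = x := by
          rw [smul_smul, ← Complex.ofReal_mul, mul_inv_cancel₀ (by positivity), Complex.ofReal_one,
            one_smul]
        rw [h2] at h1
        exact h1
  obtain ⟨y, ⟨C, hC⟩, hy⟩ := hsa _ (realPart x).2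
  obtain ⟨y', ⟨C', hC'⟩, hy'⟩ := hsa _ (imaginaryPart x).2
  refine ⟨fun n => y n + Complex.I • y' n, ⟨C + C', fun n => ?_⟩, ?_⟩
  · refine (norm_add_le _ _).trans (add_le_add (hC n) ?_)
    rw [norm_smul, Complex.norm_I, one_mul]
    exact hC' n
  · have h1 := Rel.add b S hy (Rel.smul b S Complex.I hy')
    have hxe := realPart_add_I_smul_imaginaryPart x
    rw [hxe] at h1
    exact h1

end

end Pool.Agent.T6.H53.EX
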