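import Mathlib
import Pool.Agent.T6.H53.EX.Op3

set_option autoImplicit false
set_option linter.all false

/-!
The embedding of `L(G)` into the tracial ultrapower of the subalgebra.
-/

open scoped InnerProductSpace ComplexOrder BoundedContinuousFunction ComplexConjugate
open Filter Topology

namespace Pool.Agent.T6.H53.EX

open Pool.Agent.Helper278 Pool.Agent.Helper278.RG

section

variable {G : Type} [Group G] {K : Type} [NormedAddCommGroup K] [InnerProductSpace ℂ K]
  [CompleteSpace K] (b : HilbertBasis G ℂ K) (S : Subgroup G)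
variable {T : ℕ → G →* S} {U : Ultrafilter ℕ}

theorem Psi_apply (t : G →* S) (v : MonoidAlgebra ℂ G) :
    Psi b S t v = v.coeff.sum fun g c => c • LaN b S (t g) :=
  MonoidAlgebra.lift_apply _ _

theorem Psi_supp (hT : Asy S T U) (v : MonoidAlgebra ℂ G) (hv : ∀ g, g ∉ S → v.coeff g = 0) :
    ∀ᶠ n in (U : Filter ℕ), up b S (Psi b S (T n) v) = Lop b v := by
  have h1 : ∀ᶠ n in (U : Filter ℕ), ∀ g ∈ v.coeff.support, ((T n g : S) : G) = g := by
    rw [Finset.eventually_all]
    intro g hg
    by_cases hS : g ∈ S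
    · filter_upwards [hT.self ⟨g, hS⟩] with n hn
      exact congrArg Subtype.val hn
    · exact absurd (hv g hS) (Finsupp.mem_support_iff.1 hg)
  filter_upwards [h1] with n hn
  rw [Psi_apply, Lop_apply, Finsupp.sum, Finsupp.sum]
  show inc b S _ = _
  rw [map_sum]
  refine Finset.sum_congr rfl fun g hg => ?_
  rw [map_smul]
  congr 1
  show La b ((T n g : S) : G) = La b g
  rw [hn g hg]

theorem rel_const (hT : Asy S T U) (x : Elt (NH b S)) :
    Rel b S T U (up b S x) (fun _ => x) := by
  classical
  intro ε hε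
  have h1 := b.hasSum_repr ((x : K →L[ℂ] K) (b 1))
  have h2 : ∀ᶠ s : Finset G in atTop,
      dist (∑ i ∈ s, b.repr ((x : K →L[ℂ] K) (b 1)) i • b i) ((x : K →L[ℂ] K) (b 1)) < ε :=
    (Metric.tendsto_nhds.1 h1) ε hε
  obtain ⟨s, hs⟩ := h2.exists
  let v : MonoidAlgebra ℂ G :=
    ∑ i ∈ s, MonoidAlgebra.single i (b.repr ((x : K →L[ℂ] K) (b 1)) i)
  have hco : ∀ k, v.coeff k = if k ∈ s then b.repr ((x : K →L[ℂ] K) (b 1)) k else 0 := by
    intro k
    show (∑ i ∈ s, MonoidAlgebra.single i (b.repr ((x : K →L[ℂ] K) (b 1)) i)).coeff k = _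
    rw [MonoidAlgebra.coeff_sum, Finsupp.finsetSum_apply]
    simp only [MonoidAlgebra.coeff_single, Finsupp.single_apply]
    rw [Finset.sum_ite_eq' s k]
  have hN : N2 b (up b S x - Lop b v) < ε := by
    rw [N2_Lop_sub]
    have h3 : vec b v = ∑ i ∈ s, b.repr ((x : K →L[ℂ] K) (b 1)) i • b i := by
      apply ext_coef b
      intro k
      rw [coef_vec, hco, inner_sum]
      by_cases hk : k ∈ s
      · rw [if_pos hk, Finset.sum_eq_single k]
        · rw [inner_smul_right, inner_bb_self, mul_one]
        · intro i _ hi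
          rw [inner_smul_right, inner_bb b k i (Ne.symm hi), mul_zero]
        · exact fun h => absurd hk h
      · rw [if_neg hk]
        symm
        refine Finset.sum_eq_zero fun i hi => ?_
        rw [inner_smul_right, inner_bb b k i (fun e => hk (e ▸ hi)), mul_zero]
    rw [h3, ← dist_eq_norm, dist_comm]
    exact hs
  have hv : ∀ g, g ∉ S → v.coeff g = 0 := by
    intro g hg
    rw [hco]
    have := coef_zero b S x x.2 g hg
    rw [← b.repr_apply_apply] at this
    rw [this]
    simp
  refine ⟨v, hN, ?_⟩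
  filter_upwards [Psi_supp b S hT v hv] with n hn
  have : M2 b S (x - Psi b S (T n) v) = N2 b (up b S x - up b S (Psi b S (T n) v)) := rfl
  rw [this, hn]
  exact hN

/-- bounded sequences -/
noncomputable def bcf (y : ℕ → Elt (NH b S)) (h : ∃ C : ℝ, ∀ n, ‖y n‖ ≤ C) : ℕ →ᵇ Elt (NH b S) :=
  BoundedContinuousFunction.ofNormedAddCommGroupDiscrete y h.choose h.choose_spec

theorem bcf_apply (y : ℕ → Elt (NH b S)) (h : ∃ C : ℝ, ∀ n, ‖y n‖ ≤ C) (n : ℕ) :
    bcf b S y h n = y n := rfl

variable {Q : Type} [Ring Q] [StarRing Q] [Algebra ℂ Q] [StarModule ℂ Q]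
  {π : (ℕ →ᵇ Elt (NH b S)) →⋆ₐ[ℂ] Q} {σ : Q → ℂ}

theorem pi_unique (hT : Asy S T U) (hπ : IsTracialUltrapower (TN b S).τ U π σ) {x : Elt (LK b)}
    {y y' : ℕ →ᵇ Elt (NH b S)} (h : Rel b S T U x y) (h' : Rel b S T U x y') : π y = π y' := by
  rw [pi_eq_iff hπ]
  have h1 := Rel.norm b S hT (Rel.sub b S h h')
  have h2 : N2 b (x - x) = 0 := by
    rw [sub_self]
    have := N2_smul b 0 (0 : Elt (LK b))
    simpa using this
  rw [h2] at h1
  refine h1.congr fun n => ?_
  exact (n2_TN b S _).symm

theorem exists_theta (hU : ∀ n, {n} ∉ U) (hT : Asy S T U)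
    (hπ : IsTracialUltrapower (TN b S).τ U π σ) :
    ∃ θ : Elt (LK b) →⋆ₐ[ℂ] Q, (∀ x, σ (θ x) = trG b x) ∧
      ∀ x : Elt (NH b S), θ (inc b S x) = π (BoundedContinuousFunction.const ℕ x) := by
  have hex := fun x => exists_rel b S hU hT x
  choose y hy1 hy2 using hex
  have key : ∀ (x : Elt (LK b)) (z : ℕ →ᵇ Elt (NH b S)), Rel b S T U x z →
      π (bcf b S (y x) (hy1 x)) = π z := by
    intro x z hz
    exact pi_unique b S hT hπ (y := bcf b S (y x) (hy1 x)) (y' := z) (hy2 x) hz
  let θ : Elt (LK b) →⋆ₐ[ℂ] Q :=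
    { toFun := fun x => π (bcf b S (y x) (hy1 x))
      map_one' := by
        rw [key 1 1, map_one]
        have := Rel.Lop (T := T) (U := U) b S (1 : MonoidAlgebra ℂ G)
        rw [map_one] at this
        simp only [map_one] at this
        exact this
      map_mul' := by
        intro x x'
        obtain ⟨C, hC⟩ := hy1 x
        rw [← map_mul]
        exact key _ _ (Rel.mul b S (hy2 x) (hy2 x') C hC)
      map_zero' := by
        rw [key 0 0, map_zero]
        have := Rel.Lop (T := T) (U := U) b S (0 : MonoidAlgebra ℂ G)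
        rw [map_zero] at this
        simp only [map_zero] at this
        exact this
      map_add' := by
        intro x x'
        rw [← map_add]
        exact key _ _ (Rel.add b S (hy2 x) (hy2 x'))
      commutes' := by
        intro c
        rw [Algebra.algebraMap_eq_smul_one, Algebra.algebraMap_eq_smul_one, ← map_one π, ← map_smul]
        apply key
        have := Rel.smul b S c (Rel.Lop (T := T) (U := U) b S (1 : MonoidAlgebra ℂ G))
        rw [map_one] at this
        simp only [map_one] at this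
        exact this
      map_star' := by
        intro x
        rw [← map_star]
        exact key _ _ (Rel.star b S (hy2 x)) }
  refine ⟨θ, fun x => ?_, fun x => ?_⟩
  · have h1 := hπ.trace (bcf b S (y x) (hy1 x))
    have h2 := Rel.trace b S hT (hy2 x)
    exact tendsto_nhds_unique h1 h2
  · exact key _ _ (rel_const b S hT x)

end

end Pool.Agent.T6.H53.EX
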