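import Mathlib
import Pool.Agent.T6.H53.EX.Op1

set_option autoImplicit false
set_option linter.all false

/-!
Factoriality.
-/

open scoped InnerProductSpace ComplexOrder BoundedContinuousFunction ComplexConjugate
open Filter Topology

namespace Pool.Agent.T6.H53.EX

open Pool.Agent.Helper278 Pool.Agent.Helper278.RG

section

variable {G : Type} [Group G] {K : Type} [NormedAddCommGroup K] [InnerProductSpace ℂ K]
  [CompleteSpace K] (b : HilbertBasis G ℂ K) (S : Subgroup G)

theorem comm_scalar (hG : ∀ g : G, g ≠ 1 → (Set.range fun h : S => (h : G) * g * (h : G)⁻¹).Infinite)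
    (z : K →L[ℂ] K) (hz : z ∈ LK b) (hcom : ∀ h : S, z * lamK b (h : G) = lamK b (h : G) * z) :
    ∃ c : ℂ, z = c • (1 : K →L[ℂ] K) := by
  have hfix : ∀ (g : G) (h : S), ⟪b ((h : G) * g * (h : G)⁻¹), z (b 1)⟫_ℂ = ⟪b g, z (b 1)⟫_ℂ := by
    intro g h
    have h1 : lamK b (h : G) * z = z * lamK b h := (hcom h).symm
    have h2 : ⟪b (h * g), (lamK b (h : G) * z) (b 1)⟫_ℂ = ⟪b (h * g), (z * lamK b (h : G)) (b 1)⟫_ℂ := by
      rw [h1]
    have h3 : (z * lamK b (h : G)) (b 1) = z (b h) := by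
      show z (lamK b h (b 1)) = _
      rw [lamK_basis, mul_one]
    have h4 : ⟪b (h * g), (lamK b (h : G) * z) (b 1)⟫_ℂ = ⟪b g, z (b 1)⟫_ℂ := by
      show ⟪b (h * g), permK b (Equiv.mulLeft (h : G)⁻¹) (z (b 1))⟫_ℂ = _
      rw [coef_permK]
      congr 2
      show (h : G)⁻¹ * (h * g) = g
      group
    rw [h3, h4, coef_apply b z hz h (h * g)] at h2
    exact h2.symm
  have hzero : ∀ g : G, g ≠ 1 → ⟪b g, z (b 1)⟫_ℂ = 0 := by
    intro g hg
    by_contra hne
    have h1 := (b.hasSum_inner_mul_inner (z (b 1)) (z (b 1))).summable.norm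
    have h2 : Summable (fun i : G => ‖⟪b i, z (b 1)⟫_ℂ‖ ^ 2) := by
      refine h1.congr ?_
      intro i
      rw [norm_mul, ← inner_conj_symm (z (b 1)) (b i), RCLike.norm_conj, sq]
    have h3 := h2.tendsto_cofinite_zero
    have h4 : ∀ᶠ i : G in cofinite, ‖⟪b i, z (b 1)⟫_ℂ‖ ^ 2 < ‖⟪b g, z (b 1)⟫_ℂ‖ ^ 2 :=
      h3.eventually_lt_const (by positivity)
    rw [Filter.eventually_cofinite] at h4
    refine hG g hg (h4.subset ?_)
    rintro _ ⟨h, rfl⟩
    show ¬ _
    rw [hfix g h]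
    exact lt_irrefl _
  refine ⟨⟪b 1, z (b 1)⟫_ℂ, ?_⟩
  apply ext_basis b
  intro g
  apply ext_coef b
  intro k
  rw [coef_apply b z hz]
  show _ = ⟪b k, ⟪b 1, z (b 1)⟫_ℂ • b g⟫_ℂ
  rw [inner_smul_right]
  by_cases hk : k = g
  · rw [hk, mul_inv_cancel, inner_bb_self, mul_one]
  · rw [inner_bb b k g hk, mul_zero]
    exact hzero _ fun h => hk (mul_inv_eq_one.1 h)

theorem center_NH (hG : ∀ g : G, g ≠ 1 → (Set.range fun h : S => (h : G) * g * (h : G)⁻¹).Infinite) :
    HasTrivialCenter (NH b S) := fun z hz hcom =>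
  comm_scalar b S hG z (NH_le b S z hz) fun h => hcom _ (lamK_memN b S h)

theorem infinite_NH [Infinite S] : ¬ FiniteDimensional ℂ (Elt (NH b S)) := by
  intro hfin
  let ev : Elt (NH b S) →ₗ[ℂ] K :=
    { toFun := fun x => (x : K →L[ℂ] K) (b 1)
      map_add' := fun x y => rfl
      map_smul' := fun c x => rfl }
  have h1 : LinearIndependent ℂ (ev ∘ LaN b S) := by
    have : ev ∘ LaN b S = fun h : S => b (h : G) := by
      funext h
      show lamK b (h : G) (b 1) = b h
      rw [lamK_basis, mul_one]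
    rw [this]
    exact b.orthonormal.linearIndependent.comp _ Subtype.val_injective
  have h2 : LinearIndependent ℂ (LaN b S) := LinearIndependent.of_comp ev h1
  have h3 : Finite S := h2.finite
  exact not_finite S

theorem isIIOne_NH [Infinite S]
    (hG : ∀ g : G, g ≠ 1 → (Set.range fun h : S => (h : G) * g * (h : G)⁻¹).Infinite) :
    IsIIOneFactor (NH b S) (trN b S) :=
  ⟨center_NH b S hG, infinite_NH b S, faithfulN b S, normalN b S⟩

end

end Pool.Agent.T6.H53.EX
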