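import Mathlib
import Pool.Agent.T6.H53.EX.Op1

set_option autoImplicit false
set_option linter.all false

/-!
Conditional expectations onto the group algebras of the finite subgroups, and the Haagerup property.
-/

open scoped InnerProductSpace ComplexOrder BoundedContinuousFunction ComplexConjugate
open Filter Topology

namespace Pool.Agent.T6.H53.EX

open Pool.Agent.Helper278 Pool.Agent.Helper278.RG

section

variable {G : Type} [Group G] {K : Type} [NormedAddCommGroup K] [InnerProductSpace ℂ K]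
  [CompleteSpace K] (b : HilbertBasis G ℂ K) (S : Subgroup G) (L : Subgroup S) [Fintype L]

/-- the conditional expectation onto the group algebra of a finite subgroup -/
noncomputable def EL : Elt (NH b S) →ₗ[ℂ] Elt (NH b S) where
  toFun x := ∑ h : L, ⟪b ((h : S) : G), (x : K →L[ℂ] K) (b 1)⟫_ℂ • LaN b S h
  map_add' x y := by
    rw [← Finset.sum_add_distrib]
    refine Finset.sum_congr rfl fun h _ => ?_
    rw [← add_smul]
    congr 1
    exact inner_add_right _ _ _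
  map_smul' c x := by
    rw [Finset.smul_sum]
    refine Finset.sum_congr rfl fun h _ => ?_
    rw [smul_smul]
    congr 1
    exact inner_smul_right _ _ _

theorem EL_apply (x : Elt (NH b S)) :
    EL b S L x = ∑ h : L, ⟪b ((h : S) : G), (x : K →L[ℂ] K) (b 1)⟫_ℂ • LaN b S h := rfl

theorem coe_EL (x : Elt (NH b S)) (η : K) : (EL b S L x : K →L[ℂ] K) η =
    ∑ h : L, ⟪b ((h : S) : G), (x : K →L[ℂ] K) (b 1)⟫_ℂ • lamK b ((h : S) : G) η := by
  have h1 : (EL b S L x : K →L[ℂ] K) =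
      ∑ h : L, ⟪b ((h : S) : G), (x : K →L[ℂ] K) (b 1)⟫_ℂ • lamK b ((h : S) : G) := by
    rw [EL_apply, AddSubmonoidClass.coe_finsetSum]
    rfl
  rw [h1, sum_apply]
  rfl

theorem EL_basis (x : Elt (NH b S)) : (EL b S L x : K →L[ℂ] K) (b 1) =
    ∑ h : L, ⟪b ((h : S) : G), (x : K →L[ℂ] K) (b 1)⟫_ℂ • b ((h : S) : G) := by
  rw [coe_EL]
  refine Finset.sum_congr rfl fun h _ => ?_
  rw [lamK_basis, mul_one]

theorem EL_one : EL b S L 1 = 1 := by
  classical
  rw [EL_apply, Finset.sum_eq_single 1]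
  · have h1 : ⟪b (((1 : L) : S) : G), ((1 : Elt (NH b S)) : K →L[ℂ] K) (b 1)⟫_ℂ = 1 :=
      inner_bb_self b 1
    rw [h1, one_smul]
    exact up_inj b S (La_one b)
  · intro h _ hh
    have h1 : ⟪b ((h : S) : G), ((1 : Elt (NH b S)) : K →L[ℂ] K) (b 1)⟫_ℂ = 0 := by
      apply inner_bb b
      intro e
      exact hh (Subtype.ext (Subtype.ext e))
    rw [h1, zero_smul]
  · intro h
    exact absurd (Finset.mem_univ _) h

theorem EL_trace (x : Elt (NH b S)) : trN b S (EL b S L x) = trN b S x := by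
  classical
  show ⟪b 1, (EL b S L x : K →L[ℂ] K) (b 1)⟫_ℂ = _
  rw [EL_basis, inner_sum, Finset.sum_eq_single 1]
  · rw [inner_smul_right]
    have h1 : ⟪b 1, b (((1 : L) : S) : G)⟫_ℂ = 1 := inner_bb_self b 1
    rw [h1, mul_one]
    rfl
  · intro h _ hh
    rw [inner_smul_right, inner_bb b, mul_zero]
    intro e
    exact hh (Subtype.ext (Subtype.ext e.symm))
  · intro h
    exact absurd (Finset.mem_univ _) h

/-! ### complete positivity -/

/-- the compression of a vector to the subgroup after a right translation -/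
noncomputable def zeta (g : G) (ξ : K) : K := ∑ k : L, ⟪b (((k : S) : G) * g), ξ⟫_ℂ • b ((k : S) : G)

/-- auxiliary summand -/
noncomputable def ff (y : Elt (NH b S)) (ξ η : K) (u : G) : ℂ :=
  ∑ h : L, ⟪b ((h : S) : G), (y : K →L[ℂ] K) (b 1)⟫_ℂ *
    (⟪ξ, b u⟫_ℂ * ⟪b (((h : S) : G)⁻¹ * u), η⟫_ℂ)

theorem inner_zeta (y : Elt (NH b S)) (ξ η : K) (g : G) :
    ⟪zeta b S L g ξ, (y : K →L[ℂ] K) (zeta b S L g η)⟫_ℂ =
      ∑ k : L, ff b S L y ξ η (((k : S) : G) * g) := by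
  unfold zeta
  rw [map_sum, sum_inner]
  refine Finset.sum_congr rfl fun k _ => ?_
  rw [inner_smul_left, inner_sum, Finset.mul_sum]
  unfold ff
  refine Fintype.sum_equiv ((Equiv.inv L).trans (Equiv.mulLeft k)) _ _ fun h => ?_
  have e1 : ((((Equiv.inv L).trans (Equiv.mulLeft k)) h : L) : S) = (k : S) * (h : S)⁻¹ := rfl
  rw [e1, map_smul, inner_smul_right]
  have h1 := coef_apply b (y : K →L[ℂ] K) (NH_le b S _ y.2) ((h : S) : G) ((k : S) : G)
  rw [h1]
  have e2 : (((((k : S) * (h : S)⁻¹ : S) : G))⁻¹ * (((k : S) : G) * g)) = ((h : S) : G) * g := by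
    rw [Subgroup.coe_mul, Subgroup.coe_inv]
    group
  rw [e2]
  have e3 : (((k : S) * (h : S)⁻¹ : S) : G) = ((k : S) : G) * ((h : S) : G)⁻¹ := rfl
  rw [e3, inner_conj_symm]
  ring

theorem hasSum_ff (y : Elt (NH b S)) (ξ η : K) :
    HasSum (ff b S L y ξ η) ⟪ξ, (EL b S L y : K →L[ℂ] K) η⟫_ℂ := by
  have h1 : ⟪ξ, (EL b S L y : K →L[ℂ] K) η⟫_ℂ =
      ∑ h : L, ⟪b ((h : S) : G), (y : K →L[ℂ] K) (b 1)⟫_ℂ * ⟪ξ, lamK b ((h : S) : G) η⟫_ℂ := by
    rw [coe_EL, inner_sum]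
    refine Finset.sum_congr rfl fun h _ => ?_
    rw [inner_smul_right]
  rw [h1]
  refine hasSum_sum fun h _ => ?_
  refine HasSum.mul_left _ ?_
  refine (b.hasSum_inner_mul_inner ξ (lamK b ((h : S) : G) η)).congr_fun ?_
  intro u
  congr 1
  symm
  exact coef_permK b (Equiv.mulLeft (((h : S) : G))⁻¹) η u

theorem hasSum_zeta (y : Elt (NH b S)) (ξ η : K) :
    HasSum (fun g => ⟪zeta b S L g ξ, (y : K →L[ℂ] K) (zeta b S L g η)⟫_ℂ)
      ((Fintype.card L : ℂ) * ⟪ξ, (EL b S L y : K →L[ℂ] K) η⟫_ℂ) := by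
  have h1 : ((Fintype.card L : ℂ) * ⟪ξ, (EL b S L y : K →L[ℂ] K) η⟫_ℂ) =
      ∑ k : L, ⟪ξ, (EL b S L y : K →L[ℂ] K) η⟫_ℂ := by
    rw [Finset.sum_const, Finset.card_univ, nsmul_eq_mul]
  rw [h1]
  have h2 : HasSum (fun g => ∑ k : L, ff b S L y ξ η (((k : S) : G) * g))
      (∑ k : L, ⟪ξ, (EL b S L y : K →L[ℂ] K) η⟫_ℂ) := by
    refine hasSum_sum fun k _ => ?_
    have h3 := hasSum_ff b S L y ξ η
    have h4 := (Equiv.mulLeft ((k : S) : G)).hasSum_iff (f := ff b S L y ξ η)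
      (a := ⟪ξ, (EL b S L y : K →L[ℂ] K) η⟫_ℂ)
    exact h4.2 h3
  exact h2.congr_fun fun g => inner_zeta b S L y ξ η g

theorem EL_cp (n : ℕ) (x : Fin n → Elt (NH b S)) (ξ : Fin n → K) :
    0 ≤ ∑ i, ∑ j, ⟪ξ i, (EL b S L (star (x i) * x j) : K →L[ℂ] K) (ξ j)⟫_ℂ := by
  have h1 : HasSum (fun g => ∑ i, ∑ j, ⟪zeta b S L g (ξ i),
      ((star (x i) * x j : Elt (NH b S)) : K →L[ℂ] K) (zeta b S L g (ξ j))⟫_ℂ)
      ((Fintype.card L : ℂ) * ∑ i, ∑ j, ⟪ξ i, (EL b S L (star (x i) * x j) : K →L[ℂ] K) (ξ j)⟫_ℂ) := by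
    rw [Finset.mul_sum]
    refine hasSum_sum fun i _ => ?_
    rw [Finset.mul_sum]
    exact hasSum_sum fun j _ => hasSum_zeta b S L _ _ _
  have h2 : ∀ g, (∑ i, ∑ j, ⟪zeta b S L g (ξ i),
      ((star (x i) * x j : Elt (NH b S)) : K →L[ℂ] K) (zeta b S L g (ξ j))⟫_ℂ) =
      ((‖∑ i, (x i : K →L[ℂ] K) (zeta b S L g (ξ i))‖ ^ 2 : ℝ) : ℂ) := by
    intro g
    have h3 : ((‖∑ i, (x i : K →L[ℂ] K) (zeta b S L g (ξ i))‖ ^ 2 : ℝ) : ℂ) =
        ⟪∑ i, (x i : K →L[ℂ] K) (zeta b S L g (ξ i)), ∑ i, (x i : K →L[ℂ] K) (zeta b S L g (ξ i))⟫_ℂ := by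
      rw [inner_self_eq_norm_sq_to_K]
      push_cast
      rfl
    rw [h3, sum_inner]
    refine Finset.sum_congr rfl fun i _ => ?_
    rw [inner_sum]
    refine Finset.sum_congr rfl fun j _ => ?_
    have e : ((star (x i) * x j : Elt (NH b S)) : K →L[ℂ] K) =
      ContinuousLinearMap.adjoint (x i : K →L[ℂ] K) * (x j : K →L[ℂ] K) := rfl
    rw [e]
    show ⟪_, ContinuousLinearMap.adjoint (x i : K →L[ℂ] K) ((x j : K →L[ℂ] K) _)⟫_ℂ = _
    rw [ContinuousLinearMap.adjoint_inner_right]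
  have h3 : HasSum (fun g => ((‖∑ i, (x i : K →L[ℂ] K) (zeta b S L g (ξ i))‖ ^ 2 : ℝ) : ℂ))
      ((Fintype.card L : ℂ) * ∑ i, ∑ j, ⟪ξ i, (EL b S L (star (x i) * x j) : K →L[ℂ] K) (ξ j)⟫_ℂ) :=
    h1.congr_fun fun g => (h2 g).symm
  set t := ∑ i, ∑ j, ⟪ξ i, (EL b S L (star (x i) * x j) : K →L[ℂ] K) (ξ j)⟫_ℂ with ht
  have hc : (0 : ℝ) < Fintype.card L := by exact_mod_cast Fintype.card_pos
  have hre : 0 ≤ ((Fintype.card L : ℂ) * t).re := by
    refine (Complex.hasSum_re h3).nonneg fun g => ?_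
    rw [Complex.ofReal_re]
    positivity
  have him : ((Fintype.card L : ℂ) * t).im = 0 := by
    have h4 := Complex.hasSum_im h3
    simp only [Complex.ofReal_im] at h4
    exact h4.unique hasSum_zero
  have e1 : (Fintype.card L : ℂ) = ((Fintype.card L : ℝ) : ℂ) := by push_cast; rfl
  rw [e1, Complex.re_ofReal_mul] at hre
  rw [e1, Complex.im_ofReal_mul] at him
  rw [Complex.nonneg_iff]
  constructor
  · exact nonneg_of_mul_nonneg_right hre hc
  · rcases mul_eq_zero.1 him with h | h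
    · exact absurd h hc.ne'
    · exact h.symm

/-! ### normality -/

theorem EL_normal (ξ η : K) : ∃ ξ' η' : ℕ → K, Summable (fun k => ‖ξ' k‖ ^ 2) ∧
    Summable (fun k => ‖η' k‖ ^ 2) ∧ ∀ x : Elt (NH b S),
      ⟪ξ, (EL b S L x : K →L[ℂ] K) η⟫_ℂ = ∑' k, ⟪ξ' k, (x : K →L[ℂ] K) (η' k)⟫_ℂ := by
  classical
  set m := Fintype.card L with hm
  let e : L ≃ Fin m := Fintype.equivFin L
  let w : L → K := fun h => conj ⟪ξ, lamK b ((h : S) : G) η⟫_ℂ • b ((h : S) : G)
  refine ⟨fun k => if hk : k < m then w (e.symm ⟨k, hk⟩) else 0,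
    fun k => if k < m then b 1 else 0, ?_, ?_, fun x => ?_⟩
  · refine summable_of_ne_finset_zero (s := Finset.range m) fun k hk => ?_
    rw [Finset.mem_range] at hk
    simp [hk]
  · refine summable_of_ne_finset_zero (s := Finset.range m) fun k hk => ?_
    rw [Finset.mem_range] at hk
    simp [hk]
  · rw [tsum_eq_sum (s := Finset.range m)]
    · rw [Finset.sum_range]
      rw [coe_EL, inner_sum]
      refine Fintype.sum_equiv e _ _ fun h => ?_
      have hk : ((e h : Fin m) : ℕ) < m := (e h).2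
      beta_reduce
      rw [dif_pos hk, if_pos hk]
      have e1 : e.symm ⟨((e h : Fin m) : ℕ), hk⟩ = h := by
        rw [Fin.eta, e.symm_apply_apply]
      rw [e1, inner_smul_right]
      show _ = ⟪conj ⟪ξ, lamK b ((h : S) : G) η⟫_ℂ • b ((h : S) : G), _⟫_ℂ
      rw [inner_smul_left, Complex.conj_conj, mul_comm]
    · intro k hk
      rw [Finset.mem_range] at hk
      beta_reduce
      rw [dif_neg hk, inner_zero_left]

/-! ### compactness -/

theorem EL_compact (ε : ℝ) (hε : 0 < ε) : ∃ F : Finset (Elt (NH b S)), ∀ x : Elt (NH b S),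
    M2 b S x ≤ 1 → ∃ y ∈ F, M2 b S (EL b S L x - y) < ε := by
  classical
  let Φ : (L → ℂ) → Elt (NH b S) := fun c => ∑ h : L, c h • LaN b S h
  have htb : TotallyBounded (Metric.closedBall (0 : L → ℂ) 1) :=
    (isCompact_closedBall _ _).totallyBounded
  set m : ℝ := (Fintype.card L : ℝ) with hm
  have hm0 : 0 ≤ m := by positivity
  obtain ⟨t, htf, ht⟩ := Metric.totallyBounded_iff.1 htb (ε / (m + 1)) (by positivity)
  refine ⟨(htf.toFinset).image Φ, fun x hx => ?_⟩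
  let c : L → ℂ := fun h => ⟪b ((h : S) : G), (x : K →L[ℂ] K) (b 1)⟫_ℂ
  have hc : c ∈ Metric.closedBall (0 : L → ℂ) 1 := by
    rw [mem_closedBall_zero_iff, pi_norm_le_iff_of_nonneg zero_le_one]
    intro h
    have h1 := norm_inner_le_norm (𝕜 := ℂ) (b ((h : S) : G)) ((x : K →L[ℂ] K) (b 1))
    rw [b.orthonormal.1, one_mul] at h1
    exact h1.trans hx
  have h2 := ht hc
  rw [Set.mem_iUnion₂] at h2
  obtain ⟨c', hc't, hc'⟩ := h2
  refine ⟨Φ c', Finset.mem_image.2 ⟨c', htf.mem_toFinset.2 hc't, rfl⟩, ?_⟩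
  have e1 : EL b S L x - Φ c' = ∑ h : L, (c h - c' h) • LaN b S h := by
    rw [EL_apply]
    simp only [Φ, sub_smul, Finset.sum_sub_distrib]
    rfl
  rw [e1]
  have h3 : ∀ s : Finset L, M2 b S (∑ h ∈ s, (c h - c' h) • LaN b S h) ≤ s.card * dist c c' := by
    intro s
    induction s using Finset.induction_on with
    | empty =>
      simp only [Finset.sum_empty, Finset.card_empty, Nat.cast_zero, zero_mul]
      have := (twoNorm_M2 b S).smul 0 (0 : Elt (NH b S))
      simp at this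
      exact this.le
    | insert a s ha ih =>
      rw [Finset.sum_insert ha, Finset.card_insert_of_notMem ha]
      refine ((twoNorm_M2 b S).add _ _).trans ?_
      rw [(twoNorm_M2 b S).smul]
      have h4 : M2 b S (LaN b S a) ≤ 1 := by
        show ‖lamK b ((a : S) : G) (b 1)‖ ≤ 1
        rw [lamK_basis, b.orthonormal.1]
      have h5 : ‖c a - c' a‖ ≤ dist c c' := by
        rw [← dist_eq_norm]
        exact dist_le_pi_dist c c' a
      have h6 : ‖c a - c' a‖ * M2 b S (LaN b S a) ≤ dist c c' * 1 :=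
        mul_le_mul h5 h4 (norm_nonneg _) dist_nonneg
      push_cast
      linarith
  refine (h3 Finset.univ).trans_lt ?_
  rw [Finset.card_univ]
  have h7 : dist c c' < ε / (m + 1) := by simpa using hc'
  calc (Fintype.card L : ℝ) * dist c c' ≤ m * (ε / (m + 1)) :=
        mul_le_mul_of_nonneg_left h7.le hm0
    _ < ε := by
        rw [mul_div_assoc', div_lt_iff₀ (by positivity)]
        nlinarith

end

section approx

variable {G : Type} [Group G] {K : Type} [NormedAddCommGroup K] [InnerProductSpace ℂ K]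
  [CompleteSpace K] (b : HilbertBasis G ℂ K) (S : Subgroup G) (L : ℕ → Subgroup S)
  [∀ n, Fintype (L n)]

theorem EL_approx (hmono : Monotone L) (hun : ∀ s : S, ∃ n, s ∈ L n) (x : Elt (NH b S)) (ε : ℝ)
    (hε : 0 < ε) : ∃ n₀, ∀ n ≥ n₀, M2 b S (EL b S (L n) x - x) < ε := by
  classical
  have h1 := b.hasSum_repr ((x : K →L[ℂ] K) (b 1))
  have h2 : ∀ᶠ s : Finset G in atTop,
      dist (∑ i ∈ s, b.repr ((x : K →L[ℂ] K) (b 1)) i • b i) ((x : K →L[ℂ] K) (b 1)) < ε :=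
    (Metric.tendsto_nhds.1 h1) ε hε
  rw [Filter.eventually_atTop] at h2
  obtain ⟨s, hs⟩ := h2
  choose! N hN using hun
  -- a level containing the finite set
  let n₀ : ℕ := s.sup fun g => if h : g ∈ S then N ⟨g, h⟩ else 0
  refine ⟨n₀, fun n hn => ?_⟩
  let t : Finset G := Finset.image (fun h : L n => ((h : S) : G)) (Finset.univ : Finset (L n))
  have hmem : ∀ g ∈ s, g ∈ S → g ∈ t := by
    intro g hg hgS
    have h3 : N ⟨g, hgS⟩ ≤ n := by
      have := Finset.le_sup (f := fun g => if h : g ∈ S then N ⟨g, h⟩ else 0) hg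
      simp only [dif_pos hgS] at this
      exact this.trans hn
    have h4 : (⟨g, hgS⟩ : S) ∈ L n := hmono h3 (hN _)
    exact Finset.mem_image.2 ⟨⟨⟨g, hgS⟩, h4⟩, Finset.mem_univ _, rfl⟩
  have h3 := hs (s ∪ t) Finset.subset_union_left
  have h4 : ∑ i ∈ s ∪ t, b.repr ((x : K →L[ℂ] K) (b 1)) i • b i =
      ∑ i ∈ t, b.repr ((x : K →L[ℂ] K) (b 1)) i • b i := by
    symm
    refine Finset.sum_subset Finset.subset_union_right fun g hg hgt => ?_
    have hgs : g ∈ s := (Finset.mem_union.1 hg).resolve_right hgt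
    have hgS : g ∉ S := fun h => hgt (hmem g hgs h)
    rw [b.repr_apply_apply, coef_zero b S _ x.2 g hgS, zero_smul]
  have h5 : ∑ i ∈ t, b.repr ((x : K →L[ℂ] K) (b 1)) i • b i = (EL b S (L n) x : K →L[ℂ] K) (b 1) := by
    rw [EL_basis, Finset.sum_image]
    · refine Finset.sum_congr rfl fun h _ => ?_
      rw [b.repr_apply_apply]
    · intro h _ h' _ e
      exact Subtype.ext (Subtype.ext e)
  rw [h4, h5, dist_eq_norm] at h3
  exact h3

end approx

end Pool.Agent.T6.H53.EX
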