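import Mathlib
import Pool.Agent.Helper278.RGRep

set_option autoImplicit false
set_option linter.all false

/-!
Property (T) of the group von Neumann algebra of a property (T) group.
-/

open scoped InnerProductSpace ComplexOrder BoundedContinuousFunction ComplexConjugate
open Filter Topology MulOpposite

namespace Pool.Agent.T6.H53.EX

open Pool.Agent.Helper278 Pool.Agent.Helper278.RG

section

variable {G : Type} [Group G] {K : Type} [NormedAddCommGroup K] [InnerProductSpace ℂ K]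
  [CompleteSpace K] (b : HilbertBasis G ℂ K)

theorem norm_basis (z : Elt (LK b)) (g : G) : ‖(z : K →L[ℂ] K) (b g)‖ = N2 b z := by
  have h1 : b g = rhoK b g⁻¹ (b 1) := by
    unfold rhoK
    rw [permK_basis]
    congr 1
    show g = 1 * (g⁻¹)⁻¹
    group
  have h2 := congrArg (fun x : K →L[ℂ] K => x (b 1)) (comm_right b z z.2 g⁻¹)
  have h3 : rhoK b g⁻¹ ((z : K →L[ℂ] K) (b 1)) = (z : K →L[ℂ] K) (rhoK b g⁻¹ (b 1)) := h2
  rw [h1, ← h3]
  have h4 : star (rhoK b g⁻¹) * rhoK b g⁻¹ = 1 := by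
    unfold rhoK
    rw [star_permK, permK_mul, Equiv.symm_trans_self, permK_refl]
  have h5 : ∀ v : K, ‖rhoK b g⁻¹ v‖ ^ 2 = ‖v‖ ^ 2 := by
    intro v
    have h6 : (⟪rhoK b g⁻¹ v, rhoK b g⁻¹ v⟫_ℂ) = ⟪v, v⟫_ℂ := by
      rw [← ContinuousLinearMap.adjoint_inner_right, ← ContinuousLinearMap.star_eq_adjoint]
      show ⟪v, (star (rhoK b g⁻¹) * rhoK b g⁻¹) v⟫_ℂ = _
      rw [h4]
      rfl
    rw [inner_self_eq_norm_sq_to_K, inner_self_eq_norm_sq_to_K] at h6
    exact_mod_cast h6
  exact (pow_left_inj₀ (norm_nonneg _) (norm_nonneg _) two_ne_zero).1 (h5 _)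

theorem strong_zero (z : ℕ → Elt (LK b)) (C : ℝ) (hC : ∀ k, ‖z k‖ ≤ C)
    (hz : Tendsto (fun k => N2 b (z k)) atTop (𝓝 0)) (ζ : K) :
    Tendsto (fun k => ‖(z k : K →L[ℂ] K) ζ‖) atTop (𝓝 0) := by
  have hC0 : 0 ≤ C := (norm_nonneg _).trans (hC 0)
  -- the set of good vectors is a closed subspace containing the basis
  let V : Submodule ℂ K :=
    { carrier := {ζ | Tendsto (fun k => ‖(z k : K →L[ℂ] K) ζ‖) atTop (𝓝 0)}
      zero_mem' := by
        simp only [Set.mem_ofPred_eq, map_zero, norm_zero]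
        exact tendsto_const_nhds
      add_mem' := by
        intro u v hu hv
        have h1 := hu.add hv
        rw [add_zero] at h1
        refine squeeze_zero (fun k => norm_nonneg _) (fun k => ?_) h1
        rw [map_add]
        exact norm_add_le _ _
      smul_mem' := by
        intro c u hu
        have h1 : Tendsto (fun k => ‖c‖ * ‖(z k : K →L[ℂ] K) u‖) atTop (𝓝 (‖c‖ * 0)) :=
          hu.const_mul _
        rw [mul_zero] at h1
        refine h1.congr fun k => ?_
        rw [map_smul, norm_smul] }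
  have hcl : IsClosed (V : Set K) := by
    rw [← closure_subset_iff_isClosed]
    intro u hu
    show Tendsto (fun k => ‖(z k : K →L[ℂ] K) u‖) atTop (𝓝 0)
    rw [Metric.tendsto_nhds]
    intro ε hε
    rw [Metric.mem_closure_iff] at hu
    obtain ⟨v, hv, huv⟩ := hu (ε / (2 * (C + 1))) (by positivity)
    have hv' : Tendsto (fun k => ‖(z k : K →L[ℂ] K) v‖) atTop (𝓝 0) := hv
    filter_upwards [hv'.eventually_lt_const (show (0 : ℝ) < ε / 2 by positivity)] with k hk
    rw [Real.dist_eq, sub_zero, abs_of_nonneg (norm_nonneg _)]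
    have e : (z k : K →L[ℂ] K) u = (z k : K →L[ℂ] K) (u - v) + (z k : K →L[ℂ] K) v := by
      rw [← map_add, sub_add_cancel]
    rw [e]
    refine (norm_add_le _ _).trans_lt ?_
    have h1 : ‖(z k : K →L[ℂ] K) (u - v)‖ ≤ C * (ε / (2 * (C + 1))) := by
      refine ((z k : K →L[ℂ] K).le_opNorm _).trans ?_
      rw [dist_eq_norm] at huv
      exact mul_le_mul (hC k) huv.le (norm_nonneg _) hC0
    have h2 : C * (ε / (2 * (C + 1))) ≤ ε / 2 := by
      rw [mul_div_assoc', div_le_iff₀ (by positivity)]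
      nlinarith
    linarith
  have hb : ∀ g, b g ∈ V := by
    intro g
    show Tendsto (fun k => ‖(z k : K →L[ℂ] K) (b g)‖) atTop (𝓝 0)
    refine hz.congr fun k => ?_
    exact (norm_basis b (z k) g).symm
  have htop : (⊤ : Submodule ℂ K) ≤ V := by
    rw [← b.dense_span]
    exact Submodule.topologicalClosure_minimal _ (Submodule.span_le.2 (by
      rintro _ ⟨g, rfl⟩; exact hb g)) hcl
  exact htop Submodule.mem_top

theorem normal_zero (z : ℕ → Elt (LK b)) (C : ℝ) (hC : ∀ k, ‖z k‖ ≤ C)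
    (hz : Tendsto (fun k => N2 b (z k)) atTop (𝓝 0)) (f : Elt (LK b) → ℂ)
    (hf : IsNormalPositive (LK b) f) :
    Tendsto (fun k => f (star (z k) * z k)) atTop (𝓝 0) := by
  obtain ⟨ζ, hζ, hf⟩ := hf
  have hC0 : 0 ≤ C := (norm_nonneg _).trans (hC 0)
  have h1 : ∀ k, f (star (z k) * z k) = ∑' j, ((‖(z k : K →L[ℂ] K) (ζ j)‖ ^ 2 : ℝ) : ℂ) := by
    intro k
    rw [hf]
    congr 1
    funext j
    have h1 : ((star (z k) * z k : Elt (LK b)) : K →L[ℂ] K) =
      ContinuousLinearMap.adjoint (z k : K →L[ℂ] K) * (z k : K →L[ℂ] K) := rfl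
    rw [h1]
    show ⟪ζ j, ContinuousLinearMap.adjoint (z k : K →L[ℂ] K) ((z k : K →L[ℂ] K) (ζ j))⟫_ℂ = _
    rw [ContinuousLinearMap.adjoint_inner_right, inner_self_eq_norm_sq_to_K]
    push_cast
    rfl
  have h2 : Tendsto (fun k => ∑' j, ((‖(z k : K →L[ℂ] K) (ζ j)‖ ^ 2 : ℝ) : ℂ)) atTop
      (𝓝 (∑' j : ℕ, (0 : ℂ))) := by
    refine tendsto_tsum_of_dominated_convergence (bound := fun j => C ^ 2 * ‖ζ j‖ ^ 2)
      (hζ.mul_left _) ?_ ?_
    · intro j
      have h3 := (strong_zero b z C hC hz (ζ j)).pow 2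
      have h4 := (Complex.continuous_ofReal.tendsto _).comp h3
      rw [show (((0 : ℝ) ^ 2 : ℝ) : ℂ) = 0 by norm_num] at h4
      exact h4
    · refine Eventually.of_forall fun k j => ?_
      rw [Complex.norm_real, Real.norm_eq_abs, abs_of_nonneg (by positivity), ← mul_pow]
      refine pow_le_pow_left₀ (norm_nonneg _) ?_ 2
      exact ((z k : K →L[ℂ] K).le_opNorm _).trans
        (mul_le_mul_of_nonneg_right (hC k) (norm_nonneg _))
  rw [tsum_zero] at h2
  exact h2.congr fun k => (h1 k).symm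

theorem propT_LK
    (hT : ∃ F : Finset G, ∃ ε : ℝ, 0 < ε ∧
      ∀ (H : Type) [NormedAddCommGroup H] [InnerProductSpace ℂ H] [CompleteSpace H]
        (ρ : G →* unitary (H →L[ℂ] H)),
        (∃ x : H, ‖x‖ = 1 ∧ ∀ s ∈ F, ‖(ρ s : H →L[ℂ] H) x - x‖ < ε) →
          ∃ x : H, x ≠ 0 ∧ ∀ g : G, (ρ g : H →L[ℂ] H) x = x) :
    ∃ F : Finset (Elt (LK b)), ∃ δ : ℝ, 0 < δ ∧
      ∀ (X : Type) [NormedAddCommGroup X] [InnerProductSpace ℂ X] [CompleteSpace X]
        (l : Elt (LK b) →⋆ₐ[ℂ] (X →L[ℂ] X)) (r : (Elt (LK b))ᵐᵒᵖ →⋆ₐ[ℂ] (X →L[ℂ] X)),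
        (∀ x y, l x * r y = r y * l x) →
        (∀ ζ : X, IsNormalPositive (LK b) (fun x => ⟪ζ, l x ζ⟫_ℂ)) →
        (∀ ζ : X, IsNormalPositive (LK b) (fun x => ⟪ζ, r (op x) ζ⟫_ℂ)) →
        (∃ ξ : X, ‖ξ‖ = 1 ∧ ∀ x ∈ F, ‖l x ξ - r (op x) ξ‖ < δ) →
        ∃ η : X, η ≠ 0 ∧ ∀ x, l x η = r (op x) η := by
  classical
  obtain ⟨F, ε, hε, h⟩ := hT
  refine ⟨F.image (La b), ε, hε, ?_⟩
  intro X _ _ _ l r hc hl hr ⟨ξ, hξ1, hξ⟩
  have hL : ∀ g h, l (La b g) * l (La b h) = l (La b (g * h)) := by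
    intro g h
    rw [← map_mul, La_mul]
  have hR : ∀ g h, r (op (La b g)) * r (op (La b h)) = r (op (La b (h * g))) := by
    intro g h
    rw [← map_mul, ← op_mul, La_mul]
  have hL1 : l (La b 1) = 1 := by rw [La_one, map_one]
  have hR1 : r (op (La b 1)) = 1 := by rw [La_one, op_one, map_one]
  have hLs : ∀ g, star (l (La b g)) = l (La b g⁻¹) := by
    intro g
    rw [← map_star, star_La]
  have hRs : ∀ g, star (r (op (La b g))) = r (op (La b g⁻¹)) := by
    intro g
    rw [← map_star, ← op_star, star_La]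
  let u : G → (X →L[ℂ] X) := fun g => l (La b g) * r (op (La b g⁻¹))
  have hu1 : u 1 = 1 := by
    show l (La b 1) * r (op (La b 1⁻¹)) = 1
    rw [inv_one, hL1, hR1, one_mul]
  have humul : ∀ g h, u (g * h) = u g * u h := by
    intro g h
    show l (La b (g * h)) * r (op (La b (g * h)⁻¹)) =
      l (La b g) * r (op (La b g⁻¹)) * (l (La b h) * r (op (La b h⁻¹)))
    rw [← hL, mul_inv_rev, ← hR, mul_assoc, mul_assoc]
    congr 1
    rw [← mul_assoc, ← mul_assoc, hc (La b h) (op (La b g⁻¹))]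
  have hustar : ∀ g, star (u g) = u g⁻¹ := by
    intro g
    show star (l (La b g) * r (op (La b g⁻¹))) = l (La b g⁻¹) * r (op (La b (g⁻¹)⁻¹))
    rw [star_mul, hLs, hRs, hc]
  let ρ : G →* unitary (X →L[ℂ] X) :=
    { toFun := fun g => ⟨u g, by
        rw [Unitary.mem_iff, hustar, ← humul, ← humul, inv_mul_cancel, mul_inv_cancel, hu1]
        exact ⟨rfl, rfl⟩⟩
      map_one' := Subtype.ext hu1
      map_mul' := fun g h => Subtype.ext (humul g h) }
  obtain ⟨η, hη0, hη⟩ := h X ρ ⟨ξ, hξ1, fun s hs => by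
    have h1 := hξ (La b s) (Finset.mem_image_of_mem _ hs)
    have h2 : (ρ s : X →L[ℂ] X) ξ - ξ =
        r (op (La b s⁻¹)) (l (La b s) ξ - r (op (La b s)) ξ) := by
      have e1 : (r (op (La b s⁻¹))) (r (op (La b s)) ξ) = ξ := by
        have := hR s⁻¹ s
        rw [mul_inv_cancel, hR1] at this
        exact congrArg (fun A : X →L[ℂ] X => A ξ) this
      rw [map_sub, e1]
      congr 1
      show (l (La b s) * r (op (La b s⁻¹))) ξ = _
      rw [hc]
      rfl
    rw [h2]
    have h3 : ‖r (op (La b s⁻¹)) (l (La b s) ξ - r (op (La b s)) ξ)‖ ≤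
        ‖l (La b s) ξ - r (op (La b s)) ξ‖ := by
      have h4 : ‖r (op (La b s⁻¹))‖ ≤ 1 := by
        have h5 := CStarRing.norm_star_mul_self (x := r (op (La b s⁻¹)))
        rw [hRs, hR, inv_inv, inv_mul_cancel, hR1] at h5
        have h6 : ‖(1 : X →L[ℂ] X)‖ ≤ 1 := ContinuousLinearMap.norm_id_le
        nlinarith [norm_nonneg (r (op (La b s⁻¹)))]
      refine ((r (op (La b s⁻¹))).le_opNorm _).trans ?_
      exact mul_le_of_le_one_left (norm_nonneg _) h4
    exact h3.trans_lt h1⟩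
  refine ⟨η, hη0, ?_⟩
  -- group elements
  have hg : ∀ g, l (La b g) η = r (op (La b g)) η := by
    intro g
    have h1 : (l (La b g) * r (op (La b g⁻¹))) η = η := hη g
    have h2 := congrArg (fun v => r (op (La b g)) v) h1
    have h3 : r (op (La b g)) ((l (La b g) * r (op (La b g⁻¹))) η) = l (La b g) η := by
      have e : r (op (La b g)) * (l (La b g) * r (op (La b g⁻¹))) = l (La b g) := by
        rw [hc, ← mul_assoc, hR, inv_mul_cancel, hR1, one_mul]
      exact congrArg (fun A : X →L[ℂ] X => A η) e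
    rw [← h3]
    exact h2
  -- the group algebra
  have hv : ∀ v : MonoidAlgebra ℂ G, l (Lop b v) η = r (op (Lop b v)) η := by
    intro v
    induction v using MonoidAlgebra.induction_linear with
    | zero => rw [map_zero, map_zero, op_zero, map_zero]
    | add x y hx hy =>
      rw [map_add, map_add, op_add, map_add]
      show l (Lop b x) η + l (Lop b y) η = r (op (Lop b x)) η + r (op (Lop b y)) η
      rw [hx, hy]
    | single m c =>
      have e : Lop b (MonoidAlgebra.single m c) = c • La b m := by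
        unfold Lop
        rw [MonoidAlgebra.lift_single]
        rfl
      rw [e, map_smul, op_smul, map_smul]
      show c • l (La b m) η = c • r (op (La b m)) η
      rw [hg]
  -- the unit ball
  have hball : ∀ x : Elt (LK b), ‖x‖ ≤ 1 → l x η = r (op x) η := by
    intro x hx
    have hk := fun k : ℕ => kap_LK b x hx (1 / ((k : ℝ) + 1)) (by positivity)
    choose v hv1 hv2 using hk
    let z : ℕ → Elt (LK b) := fun k => x - Lop b (v k)
    have hzC : ∀ k, ‖z k‖ ≤ 3 := by
      intro k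
      refine (norm_sub_le _ _).trans ?_
      have := hv1 k
      linarith
    have hzC' : ∀ k, ‖star (z k)‖ ≤ 3 := fun k => by rw [norm_star]; exact hzC k
    have hz0 : Tendsto (fun k => N2 b (z k)) atTop (𝓝 0) :=
      squeeze_zero (fun k => norm_nonneg _) (fun k => (hv2 k).le)
        tendsto_one_div_add_atTop_nhds_zero_nat
    have hz0' : Tendsto (fun k => N2 b (star (z k))) atTop (𝓝 0) := by
      refine hz0.congr fun k => ?_
      rw [N2_star]
    have hsq : ∀ A : X →L[ℂ] X, ((‖A η‖ ^ 2 : ℝ) : ℂ) = ⟪η, (star A * A) η⟫_ℂ := by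
      intro A
      show _ = ⟪η, star A (A η)⟫_ℂ
      rw [ContinuousLinearMap.star_eq_adjoint, ContinuousLinearMap.adjoint_inner_right,
        inner_self_eq_norm_sq_to_K]
      push_cast
      rfl
    have toNorm : ∀ A : ℕ → (X →L[ℂ] X),
        Tendsto (fun k => ⟪η, (star (A k) * A k) η⟫_ℂ) atTop (𝓝 0) →
        Tendsto (fun k => ‖A k η‖) atTop (𝓝 0) := by
      intro A hA
      have h1 : Tendsto (fun k => ‖A k η‖ ^ 2) atTop (𝓝 0) := by
        have h2 := (Complex.continuous_re.tendsto _).comp hA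
        rw [Complex.zero_re] at h2
        refine h2.congr fun k => ?_
        show (⟪η, (star (A k) * A k) η⟫_ℂ).re = _
        rw [← hsq, Complex.ofReal_re]
      have h3 := h1.sqrt
      rw [Real.sqrt_zero] at h3
      refine h3.congr fun k => ?_
      exact Real.sqrt_sq (norm_nonneg _)
    have hl0 : Tendsto (fun k => ‖l (z k) η‖) atTop (𝓝 0) := by
      apply toNorm
      refine (normal_zero b z 3 hzC hz0 _ (hl η)).congr fun k => ?_
      show ⟪η, l (star (z k) * z k) η⟫_ℂ = _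
      rw [map_mul, map_star]
    have hr0 : Tendsto (fun k => ‖r (op (z k)) η‖) atTop (𝓝 0) := by
      apply toNorm
      refine (normal_zero b (fun k => star (z k)) 3 hzC' hz0' _ (hr η)).congr fun k => ?_
      show ⟪η, r (op (star (star (z k)) * star (z k))) η⟫_ℂ = _
      rw [star_star, op_mul, op_star, map_mul, map_star]
    have hsum := hl0.add hr0
    rw [add_zero] at hsum
    have hle : ∀ k, ‖l x η - r (op x) η‖ ≤ ‖l (z k) η‖ + ‖r (op (z k)) η‖ := by
      intro k
      have e : l x η - r (op x) η = l (z k) η - r (op (z k)) η := by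
        show _ = l (x - Lop b (v k)) η - r (op (x - Lop b (v k))) η
        rw [map_sub, op_sub, map_sub]
        show _ = (l x η - l (Lop b (v k)) η) - (r (op x) η - r (op (Lop b (v k))) η)
        rw [hv]
        abel
      rw [e]
      exact norm_sub_le _ _
    have h0 : ‖l x η - r (op x) η‖ ≤ 0 := ge_of_tendsto' hsum hle
    exact sub_eq_zero.1 (norm_le_zero_iff.1 h0)
  intro x
  have h1 := hball ((((‖x‖ + 1)⁻¹ : ℝ) : ℂ) • x) (by
    rw [norm_smul, Complex.norm_real, Real.norm_eq_abs, abs_of_pos (by positivity),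
      inv_mul_le_iff₀ (by positivity), mul_one]
    linarith)
  rw [map_smul, op_smul, map_smul] at h1
  have h2 : (((‖x‖ + 1)⁻¹ : ℝ) : ℂ) • l x η = (((‖x‖ + 1)⁻¹ : ℝ) : ℂ) • r (op x) η := h1
  have h3 : (((‖x‖ + 1)⁻¹ : ℝ) : ℂ) ≠ 0 := by
    rw [Complex.ofReal_ne_zero]
    positivity
  exact smul_right_injective X h3 h2

end

end Pool.Agent.T6.H53.EX
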